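import Pool.Agent.H34.AC.KapB

/-! # [H34 AC KAPR] The embeddings of `k` attached to the real Puiseux expansions

`INFR k F`: every point at infinity of `F = 0` defined over a number field `K` with a real embedding
forces an embedding of `k` in `K`. -/

namespace Pool.Agent.H34.AC

open Finset Polynomial Pool.Agent.H72.ES Pool.Agent.H87.SA2 Pool.Agent.H97.XC

/-- every point at infinity of `F = 0` over a number field `K` with a real embedding forces
`k ⊆ K` -/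
def INFR (k : Type) [Field k] (F : MvPolynomial (Fin 2) ℤ) : Prop :=
  ∀ (K : Type) [Field K] [NumberField K], Nonempty (K →+* ℝ) →
    ∀ (X Y : LaurentSeries K), vl F X Y = 0 →
      (X ∈ (HahnSeries.ofPowerSeries ℤ K).range ∧ Y ∈ (HahnSeries.ofPowerSeries ℤ K).range) ∨
        Nonempty (k →+* K)

/-- every `K[[τ]]`-point of `f` over `t = r τ^e`, `K` with a real embedding, forces `k ⊆ K` -/
def INF1R (k : Type) [Field k] (f : ℤ[X][X]) : Prop :=
  ∀ (K : Type) [Field K] [NumberField K], Nonempty (K →+* ℝ) → ∀ (r : K) (e : ℕ)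
    (x : PowerSeries K), r ≠ 0 → 1 ≤ e → (f.map (tQ K r e)).eval x = 0 → Nonempty (k →+* K)

theorem INF.real {k : Type} [Field k] {F : MvPolynomial (Fin 2) ℤ} (h : INF k F) : INFR k F :=
  fun K _ _ _ X Y hXY => h K X Y hXY

/-- complex conjugation on the algebraic numbers -/
theorem exists_conjA : ∃ c : AA ≃ₐ[ℚ] AA, ∀ a, ((c a : AA) : ℂ) = (starRingEnd ℂ) (a : ℂ) :=
  aa_equiv ((starRingEnd ℂ).comp (algebraMap AA ℂ))

/-- the fixed field of the stabiliser of a real branch is real -/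
theorem real_Kf {c : AA ≃ₐ[ℚ] AA} (hc : ∀ a, ((c a : AA) : ℂ) = (starRingEnd ℂ) (a : ℂ)) {e : ℕ}
    {x : PowerSeries AA} {ζ : AA} (hζ : ζ ^ e = 1) (h : act c ζ x = x) :
    Nonempty (Kf e x →+* ℝ) := by
  have h1 : ∀ a : Kf e x, (((a : AA) : ℂ)).im = 0 := by
    intro a
    have h2 : c (a : AA) = (a : AA) := a.2 c ζ hζ h
    have h3 := hc (a : AA)
    rw [h2] at h3
    exact Complex.conj_eq_iff_im.1 h3.symm
  refine ⟨RingHom.mk' (⟨⟨fun a => ((a : AA) : ℂ).re, ?_⟩, ?_⟩ : Kf e x →* ℝ) ?_⟩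
  · rfl
  · intro a b
    have h2 : (((a * b : Kf e x) : AA) : ℂ) = ((a : AA) : ℂ) * ((b : AA) : ℂ) := rfl
    change (((a * b : Kf e x) : AA) : ℂ).re = _
    rw [h2, Complex.mul_re, h1, zero_mul, sub_zero]
  · intro a b
    rfl

theorem exists_kapR (k : Type) [Field k] [NumberField k] {f : ℤ[X][X]} (hinf : INF1R k f) {d : ℕ}
    (pd : PData f d) :
    ∃ (S : Finset (Fin d)) (kap : Fin d → (k →+* ℂ)),
      (∀ (i : Fin d) (ζ : ℂ), ζ ^ pd.e = 1 →
        PowerSeries.rescale ζ ((pd.x i).map (starRingEnd ℂ)) = pd.x i → i ∈ S) ∧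
      (∀ (σ : AA →+* ℂ), ∀ i ∈ S, ∀ j : Fin d,
        (∀ (m : ℕ) (a : AA), (a : ℂ) = PowerSeries.coeff m (pd.x i) →
          σ a = PowerSeries.coeff m (pd.x j)) →
        j ∈ S ∧ ∀ (z : k) (a : AA), (a : ℂ) = kap i z → σ a = kap j z) ∧
      (∀ (ζ : ℂ), ∀ i ∈ S, ∀ j : Fin d, ζ ^ pd.e = 1 →
        PowerSeries.rescale ζ (pd.x i) = pd.x j → j ∈ S ∧ kap j = kap i) := by
  classical
  obtain ⟨c, hc⟩ := exists_conjA
  obtain ⟨ξ, hξ, hs, hinj⟩ := exists_xi pd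
  obtain ⟨e, hee⟩ : ∃ e, e = pd.e := ⟨_, rfl⟩
  have he : 1 ≤ e := hee ▸ pd.e_pos
  have hζ0 : ∀ ζ : AA, ζ ^ e = 1 → ζ ≠ 0 := by
    intro ζ h h0
    rw [h0, zero_pow (by omega)] at h
    exact zero_ne_one h
  rw [← hee] at hs
  -- an arbitrary embedding
  obtain ⟨κ0⟩ : Nonempty (k →+* AA) := by
    obtain ⟨g⟩ : Nonempty (k →+* ℂ) := inferInstance
    have h1 : ∀ a : k, g a ∈ AA := by
      intro a
      rw [mem_algebraicClosure_iff]
      have h2 : IsIntegral ℚ a := Algebra.IsIntegral.isIntegral a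
      exact (h2.map (g.toRatAlgHom)).isAlgebraic
    exact ⟨g.codRestrict AA.toSubfield.toSubring h1⟩
  -- real branches
  obtain ⟨RB, hRB⟩ : ∃ RB : Fin d → Prop, ∀ i, RB i ↔ ∃ ζ : AA, ζ ^ e = 1 ∧
    act c ζ (ξ i) = ξ i := ⟨fun i => ∃ ζ : AA, ζ ^ e = 1 ∧ act c ζ (ξ i) = ξ i, fun i => Iff.rfl⟩
  have hrep : ∀ i, ∃ κ : k →+* AA, RB i → ∀ (σ : AA ≃ₐ[ℚ] AA) (ζ : AA), ζ ^ e = 1 →
      act σ ζ (ξ i) = ξ i → ∀ z, σ (κ z) = κ z := by
    intro i
    by_cases hi : RB i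
    · obtain ⟨ζ, hζ, hcζ⟩ := (hRB i).1 hi
      have hr := real_Kf hc hζ hcζ
      obtain ⟨κ, hκ⟩ := kap_repK (P := fun K _ _ => Nonempty (K →+* ℝ)) k
        (fun K _ _ hK r e' x h1 h2 h3 => hinf K hK r e' x h1 h2 h3) he pd.q_pos hs hinj i hr
      exact ⟨κ, fun _ => hκ⟩
    · exact ⟨κ0, fun h => absurd h hi⟩
  choose κ hκ using hrep
  -- the equivalence relation
  let Rl : Setoid (Fin d) :=
    { r := fun i j => ∃ (σ : AA ≃ₐ[ℚ] AA) (ζ : AA), ζ ^ e = 1 ∧ act σ ζ (ξ i) = ξ j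
      iseqv :=
        { refl := fun i => ⟨AlgEquiv.refl, 1, one_pow e, by
            refine PowerSeries.ext fun m => ?_
            rw [coeff_act, one_pow, one_mul]
            rfl⟩
          symm := by
            rintro i j ⟨σ, ζ, h1, h2⟩
            refine ⟨σ.symm, σ.symm ζ⁻¹, ?_, act_symm (hζ0 ζ h1) h2⟩
            rw [← map_pow, inv_pow, h1, inv_one, map_one]
          trans := by
            rintro i j l ⟨σ, ζ, h1, h2⟩ ⟨σ', ζ', h1', h2'⟩
            refine ⟨σ.trans σ', ζ' * σ' ζ, ?_, ?_⟩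
            · rw [mul_pow, ← map_pow, h1, h1', map_one, mul_one]
            · rw [← act_act, h2, h2'] } }
  let repq : Quotient Rl → Fin d := fun q =>
    if h : ∃ i0, Quotient.mk Rl i0 = q ∧ RB i0 then h.choose else q.out
  have hrepq : ∀ q, Quotient.mk Rl (repq q) = q := by
    intro q
    by_cases h : ∃ i0, Quotient.mk Rl i0 = q ∧ RB i0
    · change Quotient.mk Rl (if h : _ then _ else _) = q
      rw [dif_pos h]
      exact h.choose_spec.1
    · change Quotient.mk Rl (if h : _ then _ else _) = q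
      rw [dif_neg h]
      exact Quotient.out_eq q
  have hrepq2 : ∀ i0, RB i0 → RB (repq (Quotient.mk Rl i0)) := by
    intro i0 h0
    have h : ∃ i1, Quotient.mk Rl i1 = Quotient.mk Rl i0 ∧ RB i1 := ⟨i0, rfl, h0⟩
    change RB (if h : _ then _ else _)
    rw [dif_pos h]
    exact h.choose_spec.2
  obtain ⟨rep, hrepd⟩ : ∃ rep : Fin d → Fin d, ∀ i, rep i = repq (Quotient.mk Rl i) :=
    ⟨fun i => repq (Quotient.mk Rl i), fun _ => rfl⟩
  have hr1 : ∀ i, ∃ (σ : AA ≃ₐ[ℚ] AA) (ζ : AA), ζ ^ e = 1 ∧ act σ ζ (ξ (rep i)) = ξ i := by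
    intro i
    have h1 : Quotient.mk Rl (rep i) = Quotient.mk Rl i := by rw [hrepd]; exact hrepq _
    exact Quotient.exact h1
  have hr2 : ∀ i j, (∃ (σ : AA ≃ₐ[ℚ] AA) (ζ : AA), ζ ^ e = 1 ∧ act σ ζ (ξ i) = ξ j) →
      rep i = rep j := by
    intro i j h
    have h1 : Quotient.mk Rl i = Quotient.mk Rl j := Quotient.sound h
    rw [hrepd, hrepd, h1]
  choose s z hz hsz using hr1
  -- equivariance
  have hmain : ∀ (σ : AA ≃ₐ[ℚ] AA) (ζ : AA) (i j : Fin d), ζ ^ e = 1 → act σ ζ (ξ i) = ξ j →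
      RB (rep i) → RB (rep j) ∧ ∀ w : k, σ (s i (κ (rep i) w)) = s j (κ (rep j) w) := by
    intro σ ζ i j h1 h2 hRi
    have h3 := hr2 i j ⟨σ, ζ, h1, h2⟩
    refine ⟨h3 ▸ hRi, fun w => ?_⟩
    have h4 : act (s j).symm ((s j).symm (z j)⁻¹) (act σ ζ (act (s i) (z i) (ξ (rep i)))) =
        ξ (rep i) := by
      rw [hsz i, h2, h3]
      exact act_symm (hζ0 _ (hz j)) (hsz j)
    rw [act_act, act_act] at h4
    have h5 := hκ (rep i) hRi _ _ ?_ h4 w
    · rw [AlgEquiv.trans_apply, AlgEquiv.trans_apply] at h5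
      have h6 := congrArg (s j) h5
      rw [AlgEquiv.apply_symm_apply] at h6
      rw [h6, h3]
    · rw [mul_pow, mul_pow, ← map_pow, ← map_pow, ← map_pow, inv_pow, hz, hz, h1]
      simp
  have hcoe2 : ∀ i m, ((PowerSeries.coeff m (ξ i) : AA) : ℂ) = PowerSeries.coeff m (pd.x i) := by
    intro i m
    rw [← hξ, PowerSeries.coeff_map]
    rfl
  have hlift : ∀ ζ : ℂ, ζ ^ e = 1 → ∃ ζ' : AA, (ζ' : ℂ) = ζ ∧ ζ' ^ e = 1 := by
    intro ζ hζ
    have hζA : ζ ∈ AA := by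
      rw [mem_algebraicClosure_iff]
      have h2 : IsIntegral ℚ (ζ ^ e) := by
        rw [hζ]
        exact isIntegral_one
      exact (IsIntegral.of_pow he h2).isAlgebraic
    refine ⟨⟨ζ, hζA⟩, rfl, ?_⟩
    apply Subtype.ext
    rw [SubmonoidClass.coe_pow, hζ]
    rfl
  refine ⟨Finset.univ.filter fun i => RB (rep i),
    fun i => (algebraMap AA ℂ).comp (((s i : AA ≃ₐ[ℚ] AA) : AA →+* AA).comp (κ (rep i))),
    ?_, ?_, ?_⟩
  · intro i ζ hζ h
    rw [← hee] at hζ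
    obtain ⟨ζ', hζ', h1⟩ := hlift ζ hζ
    rw [Finset.mem_filter]
    refine ⟨Finset.mem_univ i, ?_⟩
    rw [hrepd]
    apply hrepq2
    rw [hRB]
    refine ⟨ζ', h1, ?_⟩
    refine PowerSeries.ext fun m => ?_
    rw [coeff_act]
    apply Subtype.ext
    have h3 := congrArg (PowerSeries.coeff m) h
    rw [PowerSeries.coeff_rescale, PowerSeries.coeff_map] at h3
    rw [hcoe2, ← h3, ← hζ', ← hcoe2, ← hc]
    rfl
  · intro σ i hi j h
    rw [Finset.mem_filter] at hi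
    obtain ⟨τ, hτ⟩ := aa_equiv σ
    have h1 : act τ 1 (ξ i) = ξ j := by
      refine PowerSeries.ext fun m => ?_
      rw [coeff_act, one_pow, one_mul]
      apply Subtype.ext
      rw [hτ, h m _ (hcoe2 i m), hcoe2]
    obtain ⟨h2a, h2⟩ := hmain τ 1 i j (one_pow e) h1 hi.2
    refine ⟨Finset.mem_filter.2 ⟨Finset.mem_univ j, h2a⟩, fun w a ha => ?_⟩
    have h3 : a = s i (κ (rep i) w) := Subtype.ext ha
    rw [← hτ, h3, h2]
    rfl
  · intro ζ i hi j hζ h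
    rw [Finset.mem_filter] at hi
    rw [← hee] at hζ
    obtain ⟨ζ', hζ', h1⟩ := hlift ζ hζ
    have h2 : act AlgEquiv.refl ζ' (ξ i) = ξ j := by
      refine PowerSeries.ext fun m => ?_
      rw [coeff_act]
      apply Subtype.ext
      have h3 := congrArg (PowerSeries.coeff m) h
      rw [PowerSeries.coeff_rescale] at h3
      rw [hcoe2, ← h3, ← hζ', ← hcoe2]
      rfl
    obtain ⟨h4a, h4⟩ := hmain AlgEquiv.refl ζ' i j h1 h2 hi.2
    refine ⟨Finset.mem_filter.2 ⟨Finset.mem_univ j, h4a⟩, ?_⟩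
    refine RingHom.ext fun w => ?_
    have h5 := congrArg (algebraMap AA ℂ) (h4 w)
    exact h5.symm

end Pool.Agent.H34.AC
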