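import Pool.Agent.H34.AC.Sqf
import Pool.Agent.H34.AC.KapR
import Pool.Agent.H97.XC.FinX

/-! # [H34 AC REDR] The reduction of an arbitrary curve with `k` at the real points at infinity -/

namespace Pool.Agent.H34.AC

open Finset Polynomial Pool.Agent.H72.ES Pool.Agent.H87.SA2 Pool.Agent.H97.XC

/-- `n (n + 1)`, the bound for the degree -/
def NR (n : ℕ) : ℕ := n * (n + 1)

def c1R (n : ℕ) : ℕ :=
  4 * NR n * (NR n + 1) * ((NR n).factorial * NR n + 1) * (sz (NR n) (NR n) + 1)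

def eR (n : ℕ) : ℕ :=
  600 * NR n ^ 3 * (sz (NR n) (NR n) + 1) ^ 2 * (14 * NR n ^ 2) ^ (sz (NR n) (NR n) + 1)

def c2R (n : ℕ) : ℕ := (2 * NR n).factorial * ((NR n + 1) * NR n) ^ (2 * NR n)

/-- the exponent of the height bound -/
def cR (n : ℕ) : ℕ :=
  (c1R n + (n + NR n + 1)) * eR n + (c2R n + (n + NR n) * (2 * NR n)) + (n + NR n) + 3

/-- the bound for all constants -/
noncomputable def bR (D B : ℕ) : ℕ := CC D D B (sz D D) + hc D D B + B + 2

theorem sz_mono {D N : ℕ} (h : D ≤ N) : sz D D ≤ sz N N := by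
  unfold sz
  have := Nat.factorial_le h
  gcongr

theorem bR_le {n D H : ℕ} (hH : 2 ≤ H) (hD1 : 1 ≤ D) (hD : D ≤ NR n) :
    bR D (2 ^ n * H ^ NR n) ≤ H ^ cR n := by
  have hH1 : 1 ≤ H := by omega
  have hp : ∀ c : ℕ, c ≤ H ^ c := fun c =>
    (Nat.lt_two_pow_self (n := c)).le.trans (Nat.pow_le_pow_left hH c)
  obtain ⟨N, hN⟩ : ∃ N, N = NR n := ⟨_, rfl⟩
  have hN1 : 1 ≤ N := by omega
  have hB : 2 ^ n * H ^ N ≤ H ^ (n + N) := by
    rw [pow_add]
    exact Nat.mul_le_mul_right _ (Nat.pow_le_pow_left hH n)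
  have hB1 : 2 ^ n * H ^ N + 1 ≤ H ^ (n + N + 1) := by
    rw [pow_succ]
    have h1 : 1 ≤ H ^ (n + N) := Nat.one_le_pow _ _ hH1
    calc 2 ^ n * H ^ N + 1 ≤ H ^ (n + N) + H ^ (n + N) := by omega
      _ = H ^ (n + N) * 2 := by ring
      _ ≤ H ^ (n + N) * H := Nat.mul_le_mul_left _ hH
  rw [← hN] at hD ⊢
  obtain ⟨B, hBd⟩ : ∃ B, B = 2 ^ n * H ^ N := ⟨_, rfl⟩
  rw [← hBd] at hB hB1 ⊢
  have hfac := Nat.factorial_le hD
  have hsz := sz_mono hD
  have hLL : LL D D B D.factorial (sz D D) ≤ H ^ (c1R n + (n + N + 1)) := by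
    unfold LL
    calc 4 * D * (D + 1) * (D.factorial * D + 1) * (B + 1) * (sz D D + 1)
        ≤ 4 * N * (N + 1) * (N.factorial * N + 1) * H ^ (n + N + 1) * (sz N N + 1) := by gcongr
      _ = (4 * N * (N + 1) * (N.factorial * N + 1) * (sz N N + 1)) * H ^ (n + N + 1) := by ring
      _ = c1R n * H ^ (n + N + 1) := by rw [c1R, ← hN]
      _ ≤ H ^ c1R n * H ^ (n + N + 1) := Nat.mul_le_mul_right _ (hp _)
      _ = _ := (pow_add _ _ _).symm
  have hCC : CC D D B (sz D D) ≤ H ^ ((c1R n + (n + N + 1)) * eR n) := by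
    unfold Pool.Agent.H97.XC.CC
    have h1 : 600 * D ^ 3 * (sz D D + 1) ^ 2 * (14 * D ^ 2) ^ (sz D D + 1) ≤ eR n := by
      rw [eR, ← hN]
      have h2 : (14 * D ^ 2) ^ (sz D D + 1) ≤ (14 * N ^ 2) ^ (sz N N + 1) := by
        refine (Nat.pow_le_pow_left (by gcongr) _).trans (Nat.pow_le_pow_right ?_ (by omega))
        have := Nat.one_le_pow 2 N hN1
        omega
      gcongr
    calc _ ≤ (H ^ (c1R n + (n + N + 1))) ^ (600 * D ^ 3 * (sz D D + 1) ^ 2 *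
          (14 * D ^ 2) ^ (sz D D + 1)) := Nat.pow_le_pow_left hLL _
      _ ≤ (H ^ (c1R n + (n + N + 1))) ^ eR n :=
          Nat.pow_le_pow_right (Nat.one_le_pow _ _ hH1) h1
      _ = _ := (pow_mul _ _ _).symm
  have hhc : hc D D B ≤ H ^ (c2R n + (n + N) * (2 * N)) := by
    unfold hc
    have h1 : (D + 1) * (D * B) ≤ ((N + 1) * N) * H ^ (n + N) := by
      calc (D + 1) * (D * B) ≤ (N + 1) * (N * H ^ (n + N)) := by gcongr
        _ = _ := by ring
    have h2 : 1 ≤ ((N + 1) * N) * H ^ (n + N) := by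
      have := Nat.one_le_pow (n + N) H hH1
      exact Nat.mul_pos (Nat.mul_pos (by omega) hN1) this
    calc (2 * D).factorial * ((D + 1) * (D * B)) ^ (2 * D)
        ≤ (2 * N).factorial * (((N + 1) * N) * H ^ (n + N)) ^ (2 * N) := by
          refine Nat.mul_le_mul (Nat.factorial_le (by omega)) ?_
          exact (Nat.pow_le_pow_left h1 _).trans (Nat.pow_le_pow_right h2 (by omega))
      _ = c2R n * H ^ ((n + N) * (2 * N)) := by
          rw [c2R, ← hN, mul_pow, ← pow_mul]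
          ring
      _ ≤ H ^ c2R n * H ^ ((n + N) * (2 * N)) := Nat.mul_le_mul_right _ (hp _)
      _ = _ := (pow_add _ _ _).symm
  obtain ⟨E, hE⟩ : ∃ E, E = (c1R n + (n + N + 1)) * eR n + (c2R n + (n + N) * (2 * N)) + (n + N) :=
    ⟨_, rfl⟩
  have hcR : cR n = E + 3 := by rw [cR, hE, ← hN]
  have m1 : H ^ ((c1R n + (n + N + 1)) * eR n) ≤ H ^ E := Nat.pow_le_pow_right hH1 (by omega)
  have m2 : H ^ (c2R n + (n + N) * (2 * N)) ≤ H ^ E := Nat.pow_le_pow_right hH1 (by omega)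
  have m3 : H ^ (n + N) ≤ H ^ E := Nat.pow_le_pow_right hH1 (by omega)
  have m4 : 1 ≤ H ^ E := Nat.one_le_pow _ _ hH1
  have m5 : 8 ≤ H ^ 3 := by
    calc 8 = 2 ^ 3 := by norm_num
      _ ≤ H ^ 3 := Nat.pow_le_pow_left hH 3
  unfold bR
  rw [hcR, pow_add]
  calc CC D D B (sz D D) + hc D D B + B + 2 ≤ H ^ E + H ^ E + H ^ E + 2 * H ^ E := by omega
    _ ≤ H ^ E * 8 := by omega
    _ ≤ H ^ E * H ^ 3 := Nat.mul_le_mul_left _ m5

theorem fI_coeff (d : ℕ) (F : ℕ → ℕ → ℤ) (j l : ℕ) :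
    ((H8.AW.fI d F).coeff j).coeff l =
      if j ≤ d then (if l ≤ d - j then F (d - j - l) j else 0) else 0 := by
  rw [H8.AW.fI, finsetSum_coeff]
  simp only [coeff_C_mul_X_pow]
  rw [Finset.sum_ite_eq]
  by_cases hj : j ≤ d
  · rw [if_pos (Finset.mem_range.2 (by omega)), if_pos hj, finsetSum_coeff]
    simp only [coeff_C_mul_X_pow]
    by_cases hl : l ≤ d - j
    · rw [if_pos hl, Finset.sum_eq_single (d - j - l)]
      · rw [if_pos (by omega)]
      · intro i hi hne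
        rw [Finset.mem_range] at hi
        rw [if_neg (by omega)]
      · intro h
        rw [Finset.mem_range] at h
        omega
    · rw [if_neg hl]
      refine Finset.sum_eq_zero fun i hi => ?_
      rw [Finset.mem_range] at hi
      rw [if_neg (by omega)]
  · rw [if_neg (by rw [Finset.mem_range]; omega), if_neg hj, coeff_zero]

theorem fI_bd {d B : ℕ} {F : ℕ → ℕ → ℤ} (h : ∀ i j, |F i j| ≤ (B : ℤ)) :
    Bd (H8.AW.fI d F) d B := by
  constructor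
  · intro j
    rw [natDegree_le_iff_coeff_eq_zero]
    intro N hN
    rw [fI_coeff]
    split_ifs with h1 h2
    · omega
    · rfl
    · rfl
  · intro j i
    rw [fI_coeff]
    split_ifs
    · exact h _ _
    · rw [abs_zero]
      positivity
    · rw [abs_zero]
      positivity

theorem Ft_le {n M H D : ℕ} (hM : n < M) (hH1 : 1 ≤ H) {a : ℤ} (ha : |a| ≤ (H : ℤ))
    {F : MvPolynomial (Fin 2) ℤ} (hn : F.totalDegree ≤ n)
    (hH : ∀ m, |F.coeff m| ≤ (H : ℤ)) (hD : D ≤ n * M) (i j : ℕ) :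
    |Ft M D a F i j| ≤ ((2 ^ n * H ^ (n * M) : ℕ) : ℤ) := by
  have hHZ : (1 : ℤ) ≤ (H : ℤ) := by exact_mod_cast hH1
  have h1 : (1 : ℤ) ≤ ((2 ^ n * H ^ (n * M) : ℕ) : ℤ) := by
    have h2 := Nat.one_le_pow (n * M) H hH1
    have h3 := Nat.one_le_two_pow (n := n)
    exact_mod_cast Nat.mul_pos h3 h2
  unfold Ft
  split_ifs with hj h2
  · rw [abs_mul, abs_pow]
    calc |a| ^ (D - 1 - j) * |((Gt M F).coeff j).coeff i|
        ≤ (H : ℤ) ^ (D - 1 - j) * ((2 ^ n * H : ℕ) : ℤ) :=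
          mul_le_mul (pow_le_pow_left₀ (abs_nonneg _) ha _) (Gt_le hM hn hH i j) (abs_nonneg _)
            (by positivity)
      _ = 2 ^ n * (H : ℤ) ^ (D - 1 - j + 1) := by push_cast; ring
      _ ≤ 2 ^ n * (H : ℤ) ^ (n * M) := by
          refine mul_le_mul_of_nonneg_left (pow_le_pow_right₀ hHZ ?_) (by positivity)
          omega
      _ = _ := by push_cast; ring
  · rw [abs_one]
    exact h1
  · rw [abs_zero]
    omega

/-- a curve `p(x) = 0` with an integer point has a point at infinity over `ℚ` -/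
theorem exists_y (k : Type) [Field k] [NumberField k] (hk : 2 ≤ Module.finrank ℚ k)
    {F : MvPolynomial (Fin 2) ℤ} (hinf : INFR k F) {x0 y0 : ℤ} (h0 : vl F x0 y0 = 0) :
    ∃ m ∈ F.support, 1 ≤ m 1 := by
  by_contra hcon
  push Not at hcon
  obtain ⟨ι, hι⟩ : ∃ ι : PowerSeries ℚ →+* LaurentSeries ℚ, ι = HahnSeries.ofPowerSeries ℤ ℚ :=
    ⟨_, rfl⟩
  have hιinj : Function.Injective ι := by
    rw [hι]
    exact HahnSeries.ofPowerSeries_injective
  have hιt : ι PowerSeries.X ≠ 0 := by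
    intro h0
    exact PowerSeries.X_ne_zero (hιinj (h0.trans (map_zero _).symm))
  have h1 : vl F (x0 : LaurentSeries ℚ) (ι PowerSeries.X)⁻¹ = 0 := by
    have h2 : vl F (x0 : LaurentSeries ℚ) (ι PowerSeries.X)⁻¹ =
        vl F (x0 : LaurentSeries ℚ) (y0 : LaurentSeries ℚ) := by
      rw [vl_eq, vl_eq]
      refine Finset.sum_congr rfl fun m hm => ?_
      have h3 : m 1 = 0 := by
        have := hcon m hm
        omega
      rw [h3, pow_zero, pow_zero]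
    rw [h2]
    have h3 := vl_hom (Int.castRingHom (LaurentSeries ℚ)) F x0 y0
    rw [h0, map_zero] at h3
    exact h3.symm
  rcases hinf ℚ ⟨algebraMap ℚ ℝ⟩ _ _ h1 with ⟨_, h3⟩ | ⟨⟨κ⟩⟩
  · rw [← hι] at h3
    obtain ⟨v, hv⟩ := h3
    have h4 : v * PowerSeries.X = 1 := by
      apply hιinj
      rw [map_mul, hv, inv_mul_cancel₀ hιt, map_one]
    have h5 := congrArg PowerSeries.constantCoeff h4
    rw [map_mul, PowerSeries.constantCoeff_X, mul_zero, map_one] at h5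
    exact zero_ne_one h5
  · have h2 := LinearMap.finrank_le_finrank_of_injective (f := κ.toRatAlgHom.toLinearMap)
      κ.injective
    rw [Module.finrank_self] at h2
    omega

theorem red_raw (k : Type) [Field k] [NumberField k] (hk : 2 ≤ Module.finrank ℚ k) (n : ℕ)
    (hn3 : 3 ≤ n) (F : MvPolynomial (Fin 2) ℤ)
    (hirr : Irreducible (MvPolynomial.map (Int.castRingHom ℚ) F)) (hn : F.totalDegree ≤ n)
    (H : ℕ) (hH2 : 2 ≤ H) (hH : ∀ m, |F.coeff m| ≤ (H : ℤ)) (hinf : INFR k F) (x0 y0 : ℤ)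
    (h0 : vl F x0 y0 = 0) :
    ∃ (d b : ℕ) (F' : ℕ → ℕ → ℤ) (a : ℤ), 4 ≤ d ∧ d ≤ n * (n + 1) ∧ 2 ≤ b ∧ F' 0 d = 1 ∧
      (∀ i j, |F' i j| ≤ (b : ℤ)) ∧ Irreducible (H8.AW.FQ d F') ∧
      (∃ pd : PData (H8.AW.fI d F') d, pd.e ≤ d.factorial ∧ pd.q ≤ b ∧ pd.R ≤ b) ∧
      (∀ (K : Type) [Field K] [CharZero K],
        (∀ (X Y : LaurentSeries K), vl F X Y = 0 →
          (X ∈ (HahnSeries.ofPowerSeries ℤ K).range ∧ Y ∈ (HahnSeries.ofPowerSeries ℤ K).range) ∨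
            Nonempty (k →+* K)) →
        ∀ (r : K) (e : ℕ) (x : PowerSeries K), r ≠ 0 → 1 ≤ e →
          ((H8.AW.fI d F').map (tQ K r e)).eval x = 0 → Nonempty (k →+* K)) ∧
      (∃ (u v : ℤ[X][X]) (c : ℤ[X]), c ≠ 0 ∧
        u * H8.AW.fI d F' + v * derivative (H8.AW.fI d F') = C c ∧
        c.natDegree ≤ 2 * d * d ∧ ∀ i, |c.coeff i| ≤ (b : ℤ)) ∧
      b ≤ H ^ cR n ∧ a ≠ 0 ∧ |a| ≤ (H : ℤ) ∧
      ∀ x y : ℤ, vl F x y = 0 → ev d F' (y + x ^ (n + 1)) (a * x) = 0 := by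
  have hF0 : F ≠ 0 := by
    intro h
    rw [h, map_zero] at hirr
    exact not_irreducible_zero hirr
  have hM : n < n + 1 := Nat.lt_succ_self n
  have hM1 : 1 ≤ n + 1 := by omega
  have hH1 : 1 ≤ H := by omega
  obtain ⟨m, hm, hm1⟩ := exists_y k hk hinf h0
  obtain ⟨D, hD⟩ : ∃ D, D = Dg (n + 1) F := ⟨_, rfl⟩
  have hD4 : 4 ≤ D := by
    have h1 := le_Dg (n + 1) F m hm
    have h2 : (n + 1) * 1 ≤ (n + 1) * m 1 := Nat.mul_le_mul_left _ hm1
    omega
  have hDn : D ≤ n * (n + 1) := hD ▸ Dg_le hM1 hn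
  obtain ⟨a, ha0, haH, ha⟩ := Gt_lead hM hn hH hF0
  have hF'1 : Ft (n + 1) D a F 0 D = 1 := by
    unfold Ft
    rw [if_neg (lt_irrefl D), if_pos ⟨rfl, rfl⟩]
  obtain ⟨B, hB⟩ : ∃ B, B = 2 ^ n * H ^ NR n := ⟨_, rfl⟩
  have hB1 : 1 ≤ B := by
    rw [hB]
    exact Nat.mul_pos Nat.one_le_two_pow (Nat.one_le_pow _ _ hH1)
  have hle : ∀ i j, |Ft (n + 1) D a F i j| ≤ (B : ℤ) := by
    intro i j
    rw [hB]
    exact Ft_le hM hH1 haH hn hH hDn i j
  have hFirr : Irreducible (H8.AW.FQ D (Ft (n + 1) D a F)) := by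
    rw [hD]
    exact Ft_irr hM1 ha0 (by omega) ha hirr
  have hbd := fI_bd (d := D) hle
  obtain ⟨hmon, hdeg⟩ := fI_monic hF'1
  have hsq := fI_sqf hF'1 hFirr
  obtain ⟨b1, b2, c, hc0, hbez, hcdeg, hcle⟩ := disc_bd hmon hdeg (by omega) hbd hB1 hsq
  obtain ⟨pd, hpe, hpq, hpR, _⟩ := exists_pdata_bd (H8.AW.fI D (Ft (n + 1) D a F)) hmon
    (s := sz D D) hdeg (by omega) hbd hB1 b1 b2 c hc0 hbez (by unfold sz; gcongr)
  have hbR := bR_le hH2 (by omega : 1 ≤ D) hDn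
  rw [← hB] at hbR
  have hinf1 : ∀ (K : Type) [Field K] [CharZero K],
      (∀ (X Y : LaurentSeries K), vl F X Y = 0 →
        (X ∈ (HahnSeries.ofPowerSeries ℤ K).range ∧ Y ∈ (HahnSeries.ofPowerSeries ℤ K).range) ∨
          Nonempty (k →+* K)) →
      ∀ (r : K) (e : ℕ) (x : PowerSeries K), r ≠ 0 → 1 ≤ e →
        ((H8.AW.fI D (Ft (n + 1) D a F)).map (tQ K r e)).eval x = 0 → Nonempty (k →+* K) := by
    intro K _ _ hK r e x hr he hx
    refine inf_inf1K k K hK (n + 1) D (Ft (n + 1) D a F) a ha0 ?_ r e x hr he hx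
    intro S _ x y
    rw [hD]
    exact Ft_ev hM1 (by omega) ha x y
  have hCCb : CC D D B (sz D D) ≤ bR D B := by unfold bR; omega
  have hhcb : hc D D B ≤ bR D B := by unfold bR; omega
  have hBb : B ≤ bR D B := by unfold bR; omega
  have h2b : 2 ≤ bR D B := by unfold bR; omega
  refine ⟨D, bR D B, Ft (n + 1) D a F, a, hD4, hDn, h2b, hF'1,
    fun i j => (hle i j).trans (by exact_mod_cast hBb), hFirr, ⟨pd, hpe, ?_, ?_⟩, hinf1,
    ⟨b1, b2, c, hc0, hbez, hcdeg, fun i => (hcle i).trans (by exact_mod_cast hhcb)⟩, hbR, ha0,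
    haH, ?_⟩
  · have h1 : pd.q ≤ CC D D B (sz D D) := by exact_mod_cast hpq
    exact h1.trans hCCb
  · exact hpR.trans (by exact_mod_cast hCCb)
  · intro x y hxy
    have h1 := Ft_ev hM1 (by omega) ha x y
    rw [hxy, mul_zero, ← hD] at h1
    rw [← h1]
    congr 1

end Pool.Agent.H34.AC
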