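import Pool.Agent.H34.AC.Trf

/-! # [H34 AC IRR] Irreducibility of the transformed polynomial -/

namespace Pool.Agent.H34.AC

open Finset Polynomial Pool.Agent.H72.ES Pool.Agent.H87.SA2

theorem FQ_ev (d : ℕ) (F : ℕ → ℕ → ℤ) :
    H8.AW.FQ d F = ev d (cst ℚ[X][X] F) (C X) X := by
  rw [H8.AW.FQ, ev, tri_comm]
  refine Finset.sum_congr rfl fun j _ => ?_
  rw [map_sum, Finset.sum_mul]
  refine Finset.sum_congr rfl fun i _ => ?_
  rw [cst, map_mul, map_pow]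
  simp

/-- the isomorphism -/
theorem exists_iso (M : ℕ) (a : ℚ) (ha : a ≠ 0) :
    ∃ Φ : MvPolynomial (Fin 2) ℚ ≃+* ℚ[X][X],
      Φ (MvPolynomial.X 0) = C (C a⁻¹) * X ∧
      Φ (MvPolynomial.X 1) = C X - (C (C a⁻¹) * X) ^ M := by
  obtain ⟨f, hf⟩ : ∃ f : MvPolynomial (Fin 2) ℚ →+* ℚ[X][X],
      f = MvPolynomial.eval₂Hom ((C : ℚ[X] →+* ℚ[X][X]).comp (C : ℚ →+* ℚ[X]))
        ![C (C a⁻¹) * X, C X - (C (C a⁻¹) * X) ^ M] := ⟨_, rfl⟩
  obtain ⟨g0, hg0⟩ : ∃ g0 : ℚ[X] →+* MvPolynomial (Fin 2) ℚ,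
      g0 = eval₂RingHom MvPolynomial.C (MvPolynomial.X 1 + (MvPolynomial.X 0) ^ M) := ⟨_, rfl⟩
  obtain ⟨g, hg⟩ : ∃ g : ℚ[X][X] →+* MvPolynomial (Fin 2) ℚ,
      g = eval₂RingHom g0 (MvPolynomial.C a * MvPolynomial.X 0) := ⟨_, rfl⟩
  have hf0 : f (MvPolynomial.X 0) = C (C a⁻¹) * X := by
    rw [hf, MvPolynomial.coe_eval₂Hom, MvPolynomial.eval₂_X]
    rfl
  have hf1 : f (MvPolynomial.X 1) = C X - (C (C a⁻¹) * X) ^ M := by
    rw [hf, MvPolynomial.coe_eval₂Hom, MvPolynomial.eval₂_X]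
    rfl
  have hfC : ∀ r, f (MvPolynomial.C r) = C (C r) := by
    intro r
    rw [hf, MvPolynomial.coe_eval₂Hom, MvPolynomial.eval₂_C]
    rfl
  have hgX : g X = MvPolynomial.C a * MvPolynomial.X 0 := by
    rw [hg, coe_eval₂RingHom, eval₂_X]
  have hgCX : g (C X) = MvPolynomial.X 1 + (MvPolynomial.X 0) ^ M := by
    rw [hg, coe_eval₂RingHom, eval₂_C, hg0, coe_eval₂RingHom, eval₂_X]
  have hgCC : ∀ r, g (C (C r)) = MvPolynomial.C r := by
    intro r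
    rw [hg, coe_eval₂RingHom, eval₂_C, hg0, coe_eval₂RingHom, eval₂_C]
  have h1 : f.comp g = RingHom.id _ := by
    refine Polynomial.ringHom_ext' ?_ ?_
    · refine Polynomial.ringHom_ext ?_ ?_
      · intro r
        rw [RingHom.comp_apply, RingHom.comp_apply, hgCC, hfC]
        rfl
      · rw [RingHom.comp_apply, RingHom.comp_apply, hgCX, map_add, map_pow, hf0, hf1,
          sub_add_cancel]
        rfl
    · rw [RingHom.comp_apply, hgX, map_mul, hf0, hfC, ← mul_assoc, ← C_mul, ← C_mul,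
        mul_inv_cancel₀ ha, C_1, C_1, one_mul]
      rfl
  have h2 : g.comp f = RingHom.id _ := by
    refine MvPolynomial.ringHom_ext ?_ ?_
    · intro r
      rw [RingHom.comp_apply, hfC, hgCC]
      rfl
    · have h3 : g (C (C a⁻¹) * X) = MvPolynomial.X 0 := by
        rw [map_mul, hgCC, hgX, ← mul_assoc, ← MvPolynomial.C_mul, inv_mul_cancel₀ ha,
          MvPolynomial.C_1, one_mul]
      intro i
      fin_cases i
      · change g (f (MvPolynomial.X 0)) = MvPolynomial.X 0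
        rw [hf0, h3]
      · change g (f (MvPolynomial.X 1)) = MvPolynomial.X 1
        rw [hf1, map_sub, map_pow, h3, hgCX, add_sub_cancel_right]
  exact ⟨RingEquiv.ofRingHom f g h1 h2, hf0, hf1⟩

theorem Ft_irr {M : ℕ} (hM : 1 ≤ M) {a : ℤ} (ha0 : a ≠ 0) {F : MvPolynomial (Fin 2) ℤ}
    (hD : 1 ≤ Dg M F) (ha : ((Gt M F).coeff (Dg M F)).coeff 0 = a)
    (hirr : Irreducible (MvPolynomial.map (Int.castRingHom ℚ) F)) :
    Irreducible (H8.AW.FQ (Dg M F) (Ft M (Dg M F) a F)) := by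
  have haQ : (a : ℚ) ≠ 0 := by exact_mod_cast ha0
  obtain ⟨Φ, h0, h1⟩ := exists_iso M (a : ℚ) haQ
  have h2 : Φ (MvPolynomial.map (Int.castRingHom ℚ) F) =
      vl F (C (C (a : ℚ)⁻¹) * X) (C X - (C (C (a : ℚ)⁻¹) * X) ^ M) := by
    have h3 := vl_hom (Φ : MvPolynomial (Fin 2) ℚ →+* ℚ[X][X]) F (MvPolynomial.X 0)
      (MvPolynomial.X 1)
    rw [RingHom.coe_coe] at h3
    have h4 : MvPolynomial.map (Int.castRingHom ℚ) F =
        vl F (MvPolynomial.X 0 : MvPolynomial (Fin 2) ℚ) (MvPolynomial.X 1) := by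
      have h5 : (MvPolynomial.map (Int.castRingHom ℚ) : MvPolynomial (Fin 2) ℤ →+* _) =
          MvPolynomial.eval₂Hom (Int.castRingHom (MvPolynomial (Fin 2) ℚ))
            ![MvPolynomial.X 0, MvPolynomial.X 1] := by
        refine MvPolynomial.ringHom_ext (fun r => ?_) (fun i => ?_)
        · simp
        · rw [MvPolynomial.map_X, MvPolynomial.coe_eval₂Hom, MvPolynomial.eval₂_X]
          fin_cases i <;> rfl
      rw [h5]
      rfl
    rw [h4, h3, h0, h1]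
  have h3 : H8.AW.FQ (Dg M F) (Ft M (Dg M F) a F) =
      ((a : ℤ) : ℚ[X][X]) ^ (Dg M F - 1) * Φ (MvPolynomial.map (Int.castRingHom ℚ) F) := by
    rw [h2, ← Ft_ev hM hD ha, FQ_ev, sub_add_cancel]
    congr 1
    rw [show ((a : ℤ) : ℚ[X][X]) = C (C (a : ℚ)) from by simp, ← mul_assoc, ← C_mul, ← C_mul,
      mul_inv_cancel₀ haQ, C_1, C_1, one_mul]
  rw [h3]
  have h4 : IsUnit (((a : ℤ) : ℚ[X][X]) ^ (Dg M F - 1)) := by
    apply IsUnit.pow
    rw [show ((a : ℤ) : ℚ[X][X]) = C (C (a : ℚ)) from by simp]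
    exact (isUnit_iff_ne_zero.2 haQ).map (C.comp C)
  rw [irreducible_isUnit_mul h4, MulEquiv.irreducible_iff]
  exact hirr

end Pool.Agent.H34.AC
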