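import Pool.Agent.H34.AC.Irr

/-! # [H34 AC SQF] The polynomial `f(t, Z)` is monic and squarefree -/

namespace Pool.Agent.H34.AC

open Finset Polynomial Pool.Agent.H72.ES Pool.Agent.H87.SA2

theorem evr_hom {S T : Type*} [CommRing S] [CommRing T] (φ : S →+* T) (d : ℕ) (F : ℕ → ℕ → ℤ)
    (x y : S) : φ (ev d (cst S F) x y) = ev d (cst T F) (φ x) (φ y) := by
  rw [ev, ev, map_sum]
  refine Finset.sum_congr rfl fun i _ => ?_
  rw [map_sum]
  refine Finset.sum_congr rfl fun j _ => ?_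
  rw [map_mul, map_mul, map_pow, map_pow, cst, cst, map_intCast]

theorem sum_monic {R : Type*} [CommRing R] [Nontrivial R] {d : ℕ} (c : ℕ → R) (hc : c d = 1) :
    (∑ j ∈ range (d + 1), C (c j) * X ^ j : R[X]).Monic ∧
      (∑ j ∈ range (d + 1), C (c j) * X ^ j : R[X]).natDegree = d := by
  have h1 : ∀ l, (∑ j ∈ range (d + 1), C (c j) * X ^ j : R[X]).coeff l =
      if l ≤ d then c l else 0 := by
    intro l
    rw [finsetSum_coeff]
    simp only [coeff_C_mul_X_pow]
    rw [Finset.sum_ite_eq]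
    simp
  have h2 : (∑ j ∈ range (d + 1), C (c j) * X ^ j : R[X]).natDegree = d := by
    apply le_antisymm
    · rw [natDegree_le_iff_coeff_eq_zero]
      intro N hN
      rw [h1, if_neg (by omega)]
    · apply le_natDegree_of_ne_zero
      rw [h1, if_pos le_rfl, hc]
      exact one_ne_zero
  refine ⟨?_, h2⟩
  rw [Monic, leadingCoeff, h2, h1, if_pos le_rfl, hc]

theorem fI_monic {d : ℕ} {F : ℕ → ℕ → ℤ} (h : F 0 d = 1) :
    (H8.AW.fI d F).Monic ∧ (H8.AW.fI d F).natDegree = d := by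
  refine sum_monic (fun j => ∑ i ∈ range (d + 1 - j), C (F i j) * X ^ (d - i - j)) ?_
  simp [h]

theorem FQ_monic {d : ℕ} {F : ℕ → ℕ → ℤ} (h : F 0 d = 1) :
    (H8.AW.FQ d F).Monic ∧ (H8.AW.FQ d F).natDegree = d := by
  refine sum_monic (fun j => ∑ i ∈ range (d + 1 - j), C ((F i j : ℤ) : ℚ) * X ^ i) ?_
  simp [h]

theorem fI_sqf {d : ℕ} {F : ℕ → ℕ → ℤ} (h : F 0 d = 1) (hirr : Irreducible (H8.AW.FQ d F)) :
    Squarefree (H8.AW.fI d F) := by
  let L := FractionRing ℚ[X]
  have hinj : Function.Injective (algebraMap ℚ[X] L) := IsFractionRing.injective ℚ[X] L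
  have hchar : CharZero L := charZero_of_injective_algebraMap hinj
  obtain ⟨p, hp⟩ : ∃ p, p = (H8.AW.FQ d F).map (algebraMap ℚ[X] L) := ⟨_, rfl⟩
  have hpirr : Irreducible p := by
    rw [hp]
    exact ((FQ_monic h).1.irreducible_iff_irreducible_map_fraction_map).1 hirr
  have hpsep : p.Separable := hpirr.separable
  obtain ⟨v, hv⟩ : ∃ v : L, v = algebraMap ℚ[X] L X := ⟨_, rfl⟩
  have hv0 : v ≠ 0 := by
    rw [hv]
    intro h0
    exact X_ne_zero (hinj (h0.trans (map_zero _).symm))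
  obtain ⟨φ, hφ⟩ : ∃ φ : ℤ[X] →+* L, φ = eval₂RingHom (Int.castRingHom L) v⁻¹ := ⟨_, rfl⟩
  obtain ⟨q, hq⟩ : ∃ q, q = (H8.AW.fI d F).map φ := ⟨_, rfl⟩
  have h1 : p.comp (X * C v) = C v ^ d * q := by
    have h2 := fI_eval ((C : L →+* L[X]).comp φ) d F (C v) (C v⁻¹) X
      (by rw [RingHom.comp_apply, hφ, coe_eval₂RingHom, eval₂_X])
      (by rw [← C_mul, mul_inv_cancel₀ hv0, C_1])
    have h3 : ((H8.AW.fI d F).map ((C : L →+* L[X]).comp φ)).eval X = q := by
      rw [← Polynomial.map_map, ← hq, eval_map, eval₂_C_X]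
    rw [h3] at h2
    rw [← h2, hp]
    have h4 := evr_hom ((compRingHom (X * C v)).comp (mapRingHom (algebraMap ℚ[X] L))) d F
      (C X) X
    rw [← FQ_ev, RingHom.comp_apply, coe_mapRingHom, coe_compRingHom] at h4
    refine h4.trans ?_
    congr 1
    · simp [hv]
    · simp
  have hq1 : q.Separable := by
    obtain ⟨A, B, hAB⟩ := hpsep
    have h2 := congrArg (fun r => r.comp (X * C v)) hAB
    simp only [add_comp, mul_comp, one_comp] at h2
    have h3 : derivative (p.comp (X * C v)) = C v * (derivative p).comp (X * C v) := by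
      rw [derivative_comp]
      simp
    rw [h1] at h3
    rw [← C_pow, derivative_C_mul] at h3
    refine ⟨A.comp (X * C v) * C v ^ d, B.comp (X * C v) * C v⁻¹ * C (v ^ d), ?_⟩
    have h4 : B.comp (X * C v) * C v⁻¹ * C (v ^ d) * derivative q =
        B.comp (X * C v) * (derivative p).comp (X * C v) := by
      calc B.comp (X * C v) * C v⁻¹ * C (v ^ d) * derivative q =
          B.comp (X * C v) * C v⁻¹ * (C (v ^ d) * derivative q) := by ring
        _ = B.comp (X * C v) * (C v⁻¹ * C v) * (derivative p).comp (X * C v) := by rw [h3]; ring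
        _ = _ := by rw [← C_mul, inv_mul_cancel₀ hv0, C_1, mul_one]
    rw [h4, ← h2, h1]
    ring
  have hq2 : Squarefree q := hq1.squarefree
  intro g hg
  have hg1 : g ∣ H8.AW.fI d F := (dvd_mul_right g g).trans hg
  have hlc : IsUnit g.leadingCoeff := by
    obtain ⟨w, hw⟩ := hg1
    have h2 := congrArg leadingCoeff hw
    rw [leadingCoeff_mul, (fI_monic h).1.leadingCoeff] at h2
    exact IsUnit.of_mul_eq_one _ h2.symm
  have h2 : IsUnit (g.map φ) := by
    apply hq2
    rw [hq, ← Polynomial.map_mul]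
    exact Polynomial.map_dvd φ hg
  have h3 : (g.map φ).natDegree = 0 := natDegree_eq_zero_of_isUnit h2
  have h4 : (g.map φ).natDegree = g.natDegree :=
    natDegree_map_of_leadingCoeff_ne_zero φ (hlc.map φ).ne_zero
  rw [h3] at h4
  rw [eq_C_of_natDegree_eq_zero h4.symm]
  refine IsUnit.map C ?_
  rw [leadingCoeff, ← h4] at hlc
  exact hlc

end Pool.Agent.H34.AC
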