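import Pool.Agent.H8.AW.Defs

/-!
# MP_821da1_nt, AllCurves: the reduction -- definitions

`INF k F`: every point at infinity of the curve `F(x,y) = 0` defined over a number field `K` forces
an embedding of `k` in `K`: for `X, Y ∈ K((t))` with `F(X,Y) = 0`, either `X, Y ∈ K[[t]]` or
`k` embeds in `K`.
`Gt M F`: the polynomial `F(z, u - z^M) ∈ ℤ[u][z]`.
`Ft M D a F`: the array of `a^(D-1) F(z/a, u - (z/a)^M)`, monic in `z` of degree `D` when `a` is the
coefficient of `z^D`.
`Dg M F`: the largest `i + M j` with `x^i y^j` in the support of `F`.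
-/

namespace Pool.Agent.H34.AC

open Finset Polynomial Pool.Agent.H72.ES Pool.Agent.H87.SA2

/-- the value `F(x, y)` in a commutative ring `S` -/
noncomputable def vl {S : Type*} [CommRing S] (F : MvPolynomial (Fin 2) ℤ) (x y : S) : S :=
  MvPolynomial.eval₂ (Int.castRingHom S) ![x, y] F

/-- every point at infinity of `F = 0` over a number field `K` forces `k ⊆ K` -/
def INF (k : Type) [Field k] (F : MvPolynomial (Fin 2) ℤ) : Prop :=
  ∀ (K : Type) [Field K] [NumberField K] (X Y : LaurentSeries K), vl F X Y = 0 →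
      (X ∈ (HahnSeries.ofPowerSeries ℤ K).range ∧ Y ∈ (HahnSeries.ofPowerSeries ℤ K).range) ∨
        Nonempty (k →+* K)

/-- `F(z, u - z^M)`, in `ℤ[u][z]` -/
noncomputable def Gt (M : ℕ) (F : MvPolynomial (Fin 2) ℤ) : ℤ[X][X] :=
  vl F (X : ℤ[X][X]) (C X - X ^ M)

/-- the largest `i + M j` with `x^i y^j` in the support -/
noncomputable def Dg (M : ℕ) (F : MvPolynomial (Fin 2) ℤ) : ℕ :=
  F.support.sup fun m => m 0 + M * m 1

/-- the array of the monic scaled polynomial -/
noncomputable def Ft (M D : ℕ) (a : ℤ) (F : MvPolynomial (Fin 2) ℤ) : ℕ → ℕ → ℤ :=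
  fun i j => if j < D then a ^ (D - 1 - j) * ((Gt M F).coeff j).coeff i
    else if j = D ∧ i = 0 then 1 else 0

/-- the substitution `t ↦ r X^e` -/
noncomputable def tQ (K : Type*) [CommRing K] (r : K) (e : ℕ) : ℤ[X] →+* PowerSeries K :=
  eval₂RingHom (Int.castRingHom (PowerSeries K)) (PowerSeries.C r * PowerSeries.X ^ e)

/-- every `K[[τ]]`-point of `f` over `t = r τ^e` forces `k ⊆ K` -/
def INF1 (k : Type) [Field k] (f : ℤ[X][X]) : Prop :=
  ∀ (K : Type) [Field K] [NumberField K] (r : K) (e : ℕ) (x : PowerSeries K), r ≠ 0 → 1 ≤ e →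
    (f.map (tQ K r e)).eval x = 0 → Nonempty (k →+* K)

end Pool.Agent.H34.AC
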