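import Pool.Agent.H34.AC.Defs

/-! # [H34 AC INF1] From Laurent series points to power series points -/

namespace Pool.Agent.H34.AC

open Finset Polynomial Pool.Agent.H72.ES Pool.Agent.H87.SA2

theorem tri_comm {S : Type*} [AddCommMonoid S] (d : ℕ) (g : ℕ → ℕ → S) :
    ∑ i ∈ range (d + 1), ∑ j ∈ range (d + 1 - i), g i j =
      ∑ j ∈ range (d + 1), ∑ i ∈ range (d + 1 - j), g i j := by
  apply Finset.sum_comm'
  intro i j
  simp only [Finset.mem_range]
  omega

/-- `fI` at a point `(t, Z)` -/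
theorem fI_eval {S : Type*} [CommRing S] (φ : ℤ[X] →+* S) (d : ℕ) (F : ℕ → ℕ → ℤ) (u t Z : S)
    (hφ : φ X = t) (hut : u * t = 1) :
    ev d (cst S F) u (Z * u) = u ^ d * ((H8.AW.fI d F).map φ).eval Z := by
  have hφi : ∀ a : ℤ, φ (C a) = (a : S) := by
    intro a
    have : φ (C a) = (φ.comp C) a := rfl
    rw [this, eq_intCast]
  have hpow : ∀ i j : ℕ, i + j ≤ d → u ^ d * t ^ (d - i - j) = u ^ (i + j) := by
    intro i j h
    calc u ^ d * t ^ (d - i - j) = u ^ (i + j) * (u ^ (d - i - j) * t ^ (d - i - j)) := by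
          rw [← mul_assoc, ← pow_add]
          congr 2
          omega
      _ = u ^ (i + j) := by rw [← mul_pow, hut, one_pow, mul_one]
  rw [ev, tri_comm, H8.AW.fI, Polynomial.map_sum, eval_finsetSum, Finset.mul_sum]
  refine Finset.sum_congr rfl fun j hj => ?_
  rw [Polynomial.map_mul, Polynomial.map_pow, Polynomial.map_C, Polynomial.map_X, eval_mul,
    eval_pow, eval_C, eval_X, map_sum, Finset.sum_mul, Finset.mul_sum]
  refine Finset.sum_congr rfl fun i hi => ?_
  rw [Finset.mem_range] at hi hj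
  rw [map_mul, map_pow, hφ, hφi, cst, mul_pow]
  calc (F i j : S) * u ^ i * (Z ^ j * u ^ j) = (F i j : S) * Z ^ j * u ^ (i + j) := by ring
    _ = (F i j : S) * Z ^ j * (u ^ d * t ^ (d - i - j)) := by rw [hpow i j (by omega)]
    _ = _ := by ring

theorem inf_inf1K (k : Type) [Field k] {F : MvPolynomial (Fin 2) ℤ} (K : Type) [Field K]
    [CharZero K]
    (h : ∀ (X Y : LaurentSeries K), vl F X Y = 0 →
      (X ∈ (HahnSeries.ofPowerSeries ℤ K).range ∧ Y ∈ (HahnSeries.ofPowerSeries ℤ K).range) ∨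
        Nonempty (k →+* K)) (M d : ℕ)
    (F' : ℕ → ℕ → ℤ) (a : ℤ) (ha : a ≠ 0)
    (hF : ∀ (S : Type) [CommRing S] (x y : S),
      ev d (cst S F') (y + x ^ M) ((a : S) * x) = (a : S) ^ (d - 1) * vl F x y)
    (r : K) (e : ℕ) (x : PowerSeries K) (hr : r ≠ 0) (he : 1 ≤ e)
    (hx : ((H8.AW.fI d F').map (tQ K r e)).eval x = 0) : Nonempty (k →+* K) := by
  obtain ⟨ι, hι⟩ : ∃ ι : PowerSeries K →+* LaurentSeries K, ι = HahnSeries.ofPowerSeries ℤ K :=
    ⟨_, rfl⟩
  have hιinj : Function.Injective ι := by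
    rw [hι]
    exact HahnSeries.ofPowerSeries_injective
  obtain ⟨t, ht⟩ : ∃ t : PowerSeries K, t = PowerSeries.C r * PowerSeries.X ^ e := ⟨_, rfl⟩
  have ht0 : t ≠ 0 := by
    rw [ht]
    refine mul_ne_zero ?_ (pow_ne_zero _ PowerSeries.X_ne_zero)
    intro h0
    exact hr (PowerSeries.C_injective (h0.trans (map_zero _).symm))
  have htc : PowerSeries.constantCoeff t = 0 := by
    rw [ht, map_mul, map_pow, PowerSeries.constantCoeff_X, zero_pow (by omega), mul_zero]
  have hιt : ι t ≠ 0 := by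
    intro h0
    exact ht0 (hιinj (h0.trans (map_zero _).symm))
  obtain ⟨u, hu⟩ : ∃ u : LaurentSeries K, u = (ι t)⁻¹ := ⟨_, rfl⟩
  have hut : u * ι t = 1 := by rw [hu, inv_mul_cancel₀ hιt]
  have h1 := fI_eval (ι.comp (tQ K r e)) d F' u (ι t) (ι x)
    (by rw [RingHom.comp_apply, tQ, coe_eval₂RingHom, eval₂_X, ht]) hut
  have h2 : ((H8.AW.fI d F').map (ι.comp (tQ K r e))).eval (ι x) = 0 := by
    rw [← Polynomial.map_map, Polynomial.eval_map, Polynomial.eval₂_at_apply, hx, map_zero]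
  rw [h2, mul_zero] at h1
  have ha0 : (a : LaurentSeries K) ≠ 0 := by
    intro h0
    have h3 : ι (a : PowerSeries K) = 0 := by rw [map_intCast, h0]
    have h4 : (a : PowerSeries K) = 0 := hιinj (h3.trans (map_zero _).symm)
    have h5 := congrArg PowerSeries.constantCoeff h4
    rw [map_intCast, map_zero] at h5
    exact ha (by exact_mod_cast h5)
  obtain ⟨X', hX'⟩ : ∃ X' : LaurentSeries K, X' = ι x * u * (a : LaurentSeries K)⁻¹ := ⟨_, rfl⟩
  have h3 : (a : LaurentSeries K) * X' = ι x * u := by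
    rw [hX', mul_comm, mul_assoc, inv_mul_cancel₀ ha0, mul_one]
  have h4 := hF (LaurentSeries K) X' (u - X' ^ M)
  rw [sub_add_cancel, h3, h1] at h4
  have h5 : vl F X' (u - X' ^ M) = 0 := by
    rcases mul_eq_zero.1 h4.symm with h6 | h6
    · exact absurd h6 (pow_ne_zero _ ha0)
    · exact h6
  rcases h X' (u - X' ^ M) h5 with ⟨h6, h7⟩ | h6
  · exfalso
    rw [← hι] at h6 h7
    have h8 : u ∈ ι.range := by
      have h9 := add_mem h7 (pow_mem h6 M)
      rwa [sub_add_cancel] at h9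
    obtain ⟨v, hv⟩ := h8
    have h9 : v * t = 1 := by
      apply hιinj
      rw [map_mul, hv, hut, map_one]
    have h10 := congrArg PowerSeries.constantCoeff h9
    rw [map_mul, htc, mul_zero, map_one] at h10
    exact zero_ne_one h10
  · exact h6

theorem inf_inf1 (k : Type) [Field k] {F : MvPolynomial (Fin 2) ℤ} (h : INF k F) (M d : ℕ)
    (F' : ℕ → ℕ → ℤ) (a : ℤ) (ha : a ≠ 0)
    (hF : ∀ (S : Type) [CommRing S] (x y : S),
      ev d (cst S F') (y + x ^ M) ((a : S) * x) = (a : S) ^ (d - 1) * vl F x y) :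
    INF1 k (H8.AW.fI d F') :=
  fun K _ _ r e x hr he hx => inf_inf1K k K (h K) M d F' a ha hF r e x hr he hx

end Pool.Agent.H34.AC
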