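import Pool.Agent.H34.AC.Defs
import Pool.Agent.H87.SA2.GALA

/-! # [H34 AC KAPA] Automorphisms of the algebraic numbers acting on Puiseux expansions -/

namespace Pool.Agent.H34.AC

open Finset Polynomial Pool.Agent.H72.ES Pool.Agent.H87.SA2 Pool.Agent.H97.XC

/-- embeddings of the field of algebraic numbers are automorphisms -/
theorem aa_equiv (σ : AA →+* ℂ) : ∃ τ : AA ≃ₐ[ℚ] AA, ∀ a, ((τ a : AA) : ℂ) = σ a := by
  have h1 : ∀ a : AA, σ a ∈ AA := by
    intro a
    rw [mem_algebraicClosure_iff]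
    have h2 : IsIntegral ℚ a := algC_int a
    exact (h2.map (σ.toRatAlgHom)).isAlgebraic
  let τ0 : AA →+* AA := σ.codRestrict AA.toSubfield.toSubring h1
  let τ1 : AA →ₐ[ℚ] AA := τ0.toRatAlgHom
  have h3 : Function.Bijective τ1 := by
    have : Algebra.IsAlgebraic ℚ AA := ⟨fun a => (algC_int a).isAlgebraic⟩
    exact Algebra.IsAlgebraic.algHom_bijective τ1
  exact ⟨AlgEquiv.ofBijective τ1 h3, fun a => rfl⟩

/-- `σ` on the coefficients, then `T ↦ ζ T` -/
noncomputable def act (σ : AA ≃ₐ[ℚ] AA) (ζ : AA) (x : PowerSeries AA) : PowerSeries AA :=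
  PowerSeries.mk fun m => ζ ^ m * σ (PowerSeries.coeff m x)

theorem coeff_act (σ : AA ≃ₐ[ℚ] AA) (ζ : AA) (x : PowerSeries AA) (m : ℕ) :
    PowerSeries.coeff m (act σ ζ x) = ζ ^ m * σ (PowerSeries.coeff m x) := by
  rw [act, PowerSeries.coeff_mk]

theorem act_act (σ' σ : AA ≃ₐ[ℚ] AA) (ζ' ζ : AA) (x : PowerSeries AA) :
    act σ' ζ' (act σ ζ x) = act (σ.trans σ') (ζ' * σ' ζ) x := by
  ext m
  rw [coeff_act, coeff_act, coeff_act, map_mul, map_pow, AlgEquiv.trans_apply, mul_pow, mul_assoc]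

theorem act_symm {σ : AA ≃ₐ[ℚ] AA} {ζ : AA} {x y : PowerSeries AA} (hζ : ζ ≠ 0)
    (h : act σ ζ x = y) : act σ.symm (σ.symm ζ⁻¹) y = x := by
  rw [← h, act_act]
  ext m
  rw [coeff_act, AlgEquiv.trans_apply, AlgEquiv.symm_apply_apply, ← map_mul,
    inv_mul_cancel₀ hζ, map_one, one_pow, one_mul]

/-- the expansions have coefficients in the field of algebraic numbers -/
theorem exists_xi {f : ℤ[X][X]} {d : ℕ} (pd : PData f d) :
    ∃ ξ : Fin d → PowerSeries AA, (∀ i, (ξ i).map (algebraMap AA ℂ) = pd.x i) ∧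
      f.map (tKq AA pd.e pd.q) = ∏ i, (X - C (ξ i)) ∧ Function.Injective ξ := by
  have hx : ∀ i k, PowerSeries.coeff k (pd.x i) ∈ AA := by
    intro i k
    rw [mem_algebraicClosure_iff]
    exact ((pd.integral i k).tower_top (A := ℚ)).isAlgebraic
  obtain ⟨ξ, hξ⟩ : ∃ ξ : Fin d → PowerSeries AA,
    ξ = fun i => PowerSeries.mk fun k => (⟨PowerSeries.coeff k (pd.x i), hx i k⟩ : AA) := ⟨_, rfl⟩
  have h1 : ∀ i, (ξ i).map (algebraMap AA ℂ) = pd.x i := by
    intro i
    ext k
    rw [PowerSeries.coeff_map, hξ, PowerSeries.coeff_mk]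
    rfl
  refine ⟨ξ, h1, ?_, ?_⟩
  · apply Polynomial.map_injective (PowerSeries.map (algebraMap AA ℂ))
      (PowerSeries.map_injective _ (algebraMap AA ℂ).injective)
    rw [Polynomial.map_map]
    have h2 : (PowerSeries.map (algebraMap AA ℂ)).comp (tKq AA pd.e pd.q) = tq pd.e pd.q := by
      apply Polynomial.ringHom_ext
      · intro a
        simp [tKq, tq]
      · simp [tKq, tq]
    rw [h2, pd.split, Polynomial.map_prod]
    refine Finset.prod_congr rfl fun i _ => ?_
    rw [Polynomial.map_sub, Polynomial.map_X, Polynomial.map_C, h1]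
  · intro i j hij
    apply pd.x_inj
    rw [← h1, ← h1, hij]

/-- an automorphism maps roots to roots -/
theorem act_root {f : ℤ[X][X]} {d e q : ℕ} {ξ : Fin d → PowerSeries AA}
    (hs : f.map (tKq AA e q) = ∏ i, (X - C (ξ i))) (σ : AA ≃ₐ[ℚ] AA) (ζ : AA) (hζ : ζ ^ e = 1)
    (i : Fin d) : ∃ j, act σ ζ (ξ i) = ξ j := by
  have h0 : ∀ x, act σ ζ x = ((PowerSeries.rescale ζ).comp
      (PowerSeries.map (σ : AA →+* AA))) x := by
    intro x
    ext m
    rw [coeff_act, RingHom.comp_apply, PowerSeries.coeff_rescale, PowerSeries.coeff_map]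
    rfl
  have h1 : ((PowerSeries.rescale ζ).comp (PowerSeries.map (σ : AA →+* AA))).comp (tKq AA e q) =
      tKq AA e q := by
    apply Polynomial.ringHom_ext
    · intro a
      simp [tKq]
    · simp only [tKq, RingHom.comp_apply, coe_eval₂RingHom, eval₂_X, map_pow, map_mul,
        PowerSeries.map_C, PowerSeries.map_X]
      rw [show ((σ : AA →+* AA) (q : AA)) = (q : AA) from map_natCast _ _, PowerSeries.rescale_X]
      have h2 : PowerSeries.rescale ζ (PowerSeries.C (q : AA)) = PowerSeries.C (q : AA) := by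
        rw [show (PowerSeries.C (q : AA)) = ((q : ℕ) : PowerSeries AA) from by simp, map_natCast]
      rw [h2, ← mul_assoc, mul_comm (PowerSeries.C (q : AA)) (PowerSeries.C ζ), mul_assoc, mul_pow,
        ← map_pow, hζ, map_one, one_mul]
  have h2 := congrArg (Polynomial.map ((PowerSeries.rescale ζ).comp
    (PowerSeries.map (σ : AA →+* AA)))) hs
  rw [Polynomial.map_map, h1, hs] at h2
  have h3 := congrArg (Polynomial.eval (act σ ζ (ξ i))) h2
  rw [Polynomial.map_prod, Polynomial.eval_prod, Polynomial.eval_prod] at h3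
  rw [Finset.prod_eq_zero (Finset.mem_univ i) (by
    rw [Polynomial.map_sub, Polynomial.map_X, Polynomial.map_C, ← h0]; simp)
    (f := fun j => Polynomial.eval (act σ ζ (ξ i)) (Polynomial.map ((PowerSeries.rescale ζ).comp
    (PowerSeries.map (σ : AA →+* AA))) (X - C (ξ j))))] at h3
  obtain ⟨j, _, hj⟩ := Finset.prod_eq_zero_iff.1 h3
  refine ⟨j, ?_⟩
  rw [eval_sub, eval_X, eval_C, sub_eq_zero] at hj
  exact hj

end Pool.Agent.H34.AC
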