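import Pool.Agent.H34.AC.KapA
import Pool.Agent.H87.SA2.NPD

/-! # [H34 AC KAPB] The fixed field of the stabiliser of a Puiseux expansion -/

namespace Pool.Agent.H34.AC

open Finset Polynomial Pool.Agent.H72.ES Pool.Agent.H87.SA2 Pool.Agent.H97.XC

/-- the common weight `g` and the constant `c` with `c T^g` invariant -/
theorem exists_gc (e : ℕ) (he : 1 ≤ e) (x : PowerSeries AA) :
    ∃ (g : ℕ) (c : AA), 1 ≤ g ∧ g ∣ e ∧ c ≠ 0 ∧ (∀ m, PowerSeries.coeff m x ≠ 0 → g ∣ m) ∧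
      ∀ (σ : AA ≃ₐ[ℚ] AA) (ζ : AA), ζ ^ e = 1 → act σ ζ x = x → σ c * ζ ^ g = c := by
  have hz : ∀ ζ : AA, ζ ^ e = 1 → ζ ≠ 0 := by
    intro ζ h h0
    rw [h0, zero_pow (by omega)] at h
    exact zero_ne_one h
  let I : AddSubgroup ℤ :=
    { carrier := {n | ∃ c : AA, c ≠ 0 ∧ ∀ (σ : AA ≃ₐ[ℚ] AA) (ζ : AA), ζ ^ e = 1 →
        act σ ζ x = x → σ c * ζ ^ n = c}
      zero_mem' := ⟨1, one_ne_zero, fun σ ζ _ _ => by rw [map_one, zpow_zero, mul_one]⟩
      add_mem' := by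
        rintro n n' ⟨c, hc, h⟩ ⟨c', hc', h'⟩
        refine ⟨c * c', mul_ne_zero hc hc', fun σ ζ h1 h2 => ?_⟩
        rw [map_mul, zpow_add₀ (hz ζ h1)]
        calc σ c * σ c' * (ζ ^ n * ζ ^ n') = (σ c * ζ ^ n) * (σ c' * ζ ^ n') := by ring
          _ = c * c' := by rw [h σ ζ h1 h2, h' σ ζ h1 h2]
      neg_mem' := by
        rintro n ⟨c, hc, h⟩
        refine ⟨c⁻¹, inv_ne_zero hc, fun σ ζ h1 h2 => ?_⟩
        have h3 := h σ ζ h1 h2
        rw [map_inv₀, zpow_neg, ← mul_inv, h3] }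
  have hIe : (e : ℤ) ∈ I := by
    refine ⟨1, one_ne_zero, fun σ ζ h1 _ => ?_⟩
    rw [map_one, zpow_natCast, h1, one_mul]
  have hIm : ∀ m : ℕ, PowerSeries.coeff m x ≠ 0 → (m : ℤ) ∈ I := by
    intro m hm
    refine ⟨PowerSeries.coeff m x, hm, fun σ ζ _ h2 => ?_⟩
    have h3 := congrArg (PowerSeries.coeff m) h2
    rw [coeff_act] at h3
    rw [zpow_natCast, mul_comm, h3]
  obtain ⟨g0, hg0⟩ := Int.subgroup_cyclic I
  have hmem : ∀ n : ℤ, n ∈ I ↔ g0 ∣ n := by
    intro n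
    rw [hg0, ← AddSubgroup.zmultiples_eq_closure, Int.mem_zmultiples_iff]
  have hgI : ((g0.natAbs : ℕ) : ℤ) ∈ I := by
    rw [hmem]
    exact Int.dvd_natAbs.2 dvd_rfl
  obtain ⟨c, hc, h⟩ := hgI
  have hd : ∀ n : ℕ, (n : ℤ) ∈ I → g0.natAbs ∣ n := by
    intro n hn
    exact Int.natAbs_dvd_natAbs.2 ((hmem n).1 hn)
  refine ⟨g0.natAbs, c, ?_, hd e hIe, hc, fun m hm => hd m (hIm m hm), fun σ ζ h1 h2 => ?_⟩
  · exact Nat.pos_of_dvd_of_pos (hd e hIe) he
  · have := h σ ζ h1 h2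
    rw [zpow_natCast] at this
    exact this

/-- the fixed field of the stabiliser -/
def Kf (e : ℕ) (x : PowerSeries AA) : IntermediateField ℚ AA where
  carrier := {a | ∀ (σ : AA ≃ₐ[ℚ] AA) (ζ : AA), ζ ^ e = 1 → act σ ζ x = x → σ a = a}
  mul_mem' := by
    intro a b ha hb σ ζ h1 h2
    rw [map_mul, ha σ ζ h1 h2, hb σ ζ h1 h2]
  add_mem' := by
    intro a b ha hb σ ζ h1 h2
    rw [map_add, ha σ ζ h1 h2, hb σ ζ h1 h2]
  algebraMap_mem' := by
    intro r σ ζ _ _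
    exact σ.commutes r
  inv_mem' := by
    intro a ha σ ζ h1 h2
    rw [map_inv₀, ha σ ζ h1 h2]

theorem mem_Kf {e : ℕ} {x : PowerSeries AA} {a : AA} : a ∈ Kf e x ↔
    ∀ (σ : AA ≃ₐ[ℚ] AA) (ζ : AA), ζ ^ e = 1 → act σ ζ x = x → σ a = a := Iff.rfl

theorem Kf_fin {f : ℤ[X][X]} {d e q : ℕ} {ξ : Fin d → PowerSeries AA}
    (hs : f.map (tKq AA e q) = ∏ i, (X - C (ξ i))) (hinj : Function.Injective ξ) (i : Fin d) :
    FiniteDimensional ℚ (Kf e (ξ i)) := by
  classical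
  -- separation of the expansions
  have h1 : ∀ j : Fin d, ∃ m : ℕ, j ≠ i → PowerSeries.coeff m (ξ j) ≠ PowerSeries.coeff m (ξ i) := by
    intro j
    by_cases hj : j = i
    · exact ⟨0, fun h => absurd hj h⟩
    · have h2 : ξ j ≠ ξ i := fun h => hj (hinj h)
      by_contra hcon
      push Not at hcon
      exact h2 (PowerSeries.ext fun m => (hcon m).2)
  choose m hm using h1
  set S : Set AA := Set.range fun j : Fin d => PowerSeries.coeff (m j) (ξ i) with hS
  have hle : Kf e (ξ i) ≤ IntermediateField.adjoin ℚ S := by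
    intro y hy
    apply galA_mem S y
    intro σ hσ
    obtain ⟨τ, hτ⟩ := aa_equiv σ
    have h3 : ∀ j, τ (PowerSeries.coeff (m j) (ξ i)) = PowerSeries.coeff (m j) (ξ i) := by
      intro j
      have h4 := hσ _ (Set.mem_range_self j)
      apply Subtype.ext
      rw [hτ]
      exact h4
    obtain ⟨j, hj⟩ := act_root hs τ 1 (one_pow e) i
    have h5 : j = i := by
      by_contra hne
      apply hm j hne
      rw [← hj, coeff_act, one_pow, one_mul, h3]
    rw [h5] at hj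
    rw [← hτ, hy τ 1 (one_pow e) hj]
  have hfd : FiniteDimensional ℚ (IntermediateField.adjoin ℚ S) := by
    have : Finite S := Set.finite_range _
    exact IntermediateField.finiteDimensional_adjoin fun x _ => algC_int x
  exact FiniteDimensional.of_injective (IntermediateField.inclusion hle).toLinearMap
    (IntermediateField.inclusion hle).injective

/-- the embedding of `k` attached to a Puiseux expansion, for fields with a property `P` -/
theorem kap_repK (k : Type) [Field k] {f : ℤ[X][X]}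
    {P : ∀ (K : Type) [Field K] [NumberField K], Prop}
    (hinf : ∀ (K : Type) [Field K] [NumberField K], P K → ∀ (r : K) (e : ℕ) (x : PowerSeries K),
      r ≠ 0 → 1 ≤ e → (f.map (tQ K r e)).eval x = 0 → Nonempty (k →+* K))
    {d e q : ℕ} (he : 1 ≤ e)
    (hq : 1 ≤ q) {ξ : Fin d → PowerSeries AA}
    (hs : f.map (tKq AA e q) = ∏ i, (X - C (ξ i))) (hinj : Function.Injective ξ) (i : Fin d)
    (hPi : ∀ [NumberField (Kf e (ξ i))], P (Kf e (ξ i))) :
    ∃ κ : k →+* AA, ∀ (σ : AA ≃ₐ[ℚ] AA) (ζ : AA), ζ ^ e = 1 → act σ ζ (ξ i) = ξ i →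
      ∀ z, σ (κ z) = κ z := by
  obtain ⟨g, c, hg1, ⟨e', he'⟩, hc, hgm, hgc⟩ := exists_gc e he (ξ i)
  have hfd := Kf_fin hs hinj i
  have hnf : NumberField (Kf e (ξ i)) := { to_charZero := inferInstance, to_finiteDimensional := hfd }
  have hζ0 : ∀ ζ : AA, ζ ^ e = 1 → ζ ≠ 0 := by
    intro ζ h h0
    rw [h0, zero_pow (by omega)] at h
    exact zero_ne_one h
  -- the coefficients
  have hb : ∀ l, PowerSeries.coeff (g * l) (ξ i) * (c ^ l)⁻¹ ∈ Kf e (ξ i) := by
    intro l σ ζ h1 h2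
    have h3 := congrArg (PowerSeries.coeff (g * l)) h2
    rw [coeff_act] at h3
    have h4 := hgc σ ζ h1 h2
    have h5 : ζ ^ (g * l) ≠ 0 := pow_ne_zero _ (hζ0 ζ h1)
    have h6 : σ (c ^ l) * ζ ^ (g * l) = c ^ l := by
      rw [map_pow, pow_mul, ← mul_pow, h4]
    have hσc : σ (c ^ l) ≠ 0 := by
      rw [Ne, EmbeddingLike.map_eq_zero_iff]
      exact pow_ne_zero _ hc
    rw [map_mul, map_inv₀]
    calc σ (PowerSeries.coeff (g * l) (ξ i)) * (σ (c ^ l))⁻¹
        = (ζ ^ (g * l) * σ (PowerSeries.coeff (g * l) (ξ i))) *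
          (σ (c ^ l) * ζ ^ (g * l))⁻¹ := by
          field_simp
      _ = _ := by rw [h3, h6]
  have hr : (q : AA) ^ e * (c ^ e')⁻¹ ∈ Kf e (ξ i) := by
    intro σ ζ h1 h2
    have h4 := hgc σ ζ h1 h2
    have h6 : σ (c ^ e') = c ^ e' := by
      have h7 : σ (c ^ e') * ζ ^ (g * e') = c ^ e' := by
        rw [map_pow, pow_mul, ← mul_pow, h4]
      rw [← he', h1, mul_one] at h7
      exact h7
    rw [map_mul, map_inv₀, h6, map_pow, map_natCast]
  obtain ⟨r, hrd⟩ : ∃ r : Kf e (ξ i), (r : AA) = (q : AA) ^ e * (c ^ e')⁻¹ := ⟨⟨_, hr⟩, rfl⟩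
  obtain ⟨xh, hxh⟩ : ∃ xh : PowerSeries (Kf e (ξ i)), ∀ l,
      algebraMap (Kf e (ξ i)) AA (PowerSeries.coeff l xh) =
      PowerSeries.coeff (g * l) (ξ i) * (c ^ l)⁻¹ :=
    ⟨PowerSeries.mk fun l => ⟨_, hb l⟩, fun l => by rw [PowerSeries.coeff_mk]; rfl⟩
  have he1 : 1 ≤ e' := by
    rcases Nat.eq_zero_or_pos e' with h0 | h0
    · rw [h0, mul_zero] at he'
      omega
    · exact h0
  have hq0 : (q : AA) ≠ 0 := by
    have : q ≠ 0 := by omega
    exact_mod_cast this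
  have hr0 : r ≠ 0 := by
    intro h0
    have h1 : (r : AA) = 0 := by rw [h0]; rfl
    rw [hrd] at h1
    exact mul_ne_zero (pow_ne_zero _ hq0) (inv_ne_zero (pow_ne_zero _ hc)) h1
  -- the embedding in the ring of series in `T`
  obtain ⟨Θ, hΘ⟩ : ∃ Θ : PowerSeries (Kf e (ξ i)) →+* PowerSeries AA,
      Θ = (exr AA g (by omega)).comp ((PowerSeries.rescale c).comp
        (PowerSeries.map (algebraMap (Kf e (ξ i)) AA))) := ⟨_, rfl⟩
  have hΘc : ∀ (x : PowerSeries (Kf e (ξ i))) (m : ℕ), PowerSeries.coeff m (Θ x) =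
      if g ∣ m then c ^ (m / g) * algebraMap (Kf e (ξ i)) AA (PowerSeries.coeff (m / g) x) else 0 := by
    intro x m
    rw [hΘ, RingHom.comp_apply, RingHom.comp_apply, coeff_exr, PowerSeries.coeff_rescale,
      PowerSeries.coeff_map]
  have hΘinj : Function.Injective Θ := by
    intro x y hxy
    refine PowerSeries.ext fun m => ?_
    have h1 := congrArg (PowerSeries.coeff (g * m)) hxy
    rw [hΘc, hΘc, if_pos (dvd_mul_right g m), if_pos (dvd_mul_right g m),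
      Nat.mul_div_cancel_left m (by omega)] at h1
    exact (algebraMap (Kf e (ξ i)) AA).injective (mul_left_cancel₀ (pow_ne_zero m hc) h1)
  have hΘx : Θ xh = ξ i := by
    refine PowerSeries.ext fun m => ?_
    rw [hΘc]
    split_ifs with h
    · obtain ⟨l, rfl⟩ := h
      rw [Nat.mul_div_cancel_left l (by omega), hxh]
      have := pow_ne_zero l hc
      field_simp
    · by_contra hne
      exact h (hgm m (fun h0 => hne h0.symm))
  have hΘt : Θ.comp (tQ (Kf e (ξ i)) r e') = tKq AA e q := by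
    apply Polynomial.ringHom_ext
    · intro a
      simp [tQ, tKq]
    · rw [RingHom.comp_apply, tQ, tKq, coe_eval₂RingHom, coe_eval₂RingHom, eval₂_X, eval₂_X, hΘ,
        RingHom.comp_apply, RingHom.comp_apply, map_mul, map_mul, map_mul, map_pow, map_pow,
        map_pow, PowerSeries.map_C, PowerSeries.map_X]
      have h1 : algebraMap (Kf e (ξ i)) AA r = (q : AA) ^ e * (c ^ e')⁻¹ := hrd
      have h2 : PowerSeries.rescale c (PowerSeries.C ((q : AA) ^ e * (c ^ e')⁻¹)) =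
          PowerSeries.C ((q : AA) ^ e * (c ^ e')⁻¹) := by
        ext m
        rw [PowerSeries.coeff_rescale, PowerSeries.coeff_C]
        split_ifs with h
        · rw [h, pow_zero, one_mul]
        · rw [mul_zero]
      have h3 : exr AA g (by omega) (PowerSeries.C c * PowerSeries.X) =
          PowerSeries.C c * PowerSeries.X ^ g := by
        rw [RingHom.map_mul, exr_C, exr_X]
      have h4 : (q : AA) ^ e * (c ^ e')⁻¹ * c ^ e' = (q : AA) ^ e := by
        rw [mul_assoc, inv_mul_cancel₀ (pow_ne_zero e' hc), mul_one]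
      rw [h1, h2, exr_C, PowerSeries.rescale_X, h3, mul_pow, ← pow_mul, ← he', mul_pow, ← mul_assoc,
        ← RingHom.map_pow, ← RingHom.map_mul, h4, RingHom.map_pow]
  have hroot : (f.map (tQ (Kf e (ξ i)) r e')).eval xh = 0 := by
    apply hΘinj
    rw [map_zero, ← Polynomial.eval₂_at_apply, hΘx, ← Polynomial.eval_map, Polynomial.map_map, hΘt,
      hs, eval_prod]
    exact Finset.prod_eq_zero (Finset.mem_univ i) (by simp)
  obtain ⟨κ⟩ := hinf (Kf e (ξ i)) hPi r e' xh hr0 he1 hroot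
  refine ⟨(algebraMap (Kf e (ξ i)) AA).comp κ, fun σ ζ h1 h2 z => ?_⟩
  exact (κ z).2 σ ζ h1 h2

/-- the embedding of `k` attached to a Puiseux expansion -/
theorem kap_rep (k : Type) [Field k] {f : ℤ[X][X]} (hinf : INF1 k f) {d e q : ℕ} (he : 1 ≤ e)
    (hq : 1 ≤ q) {ξ : Fin d → PowerSeries AA}
    (hs : f.map (tKq AA e q) = ∏ i, (X - C (ξ i))) (hinj : Function.Injective ξ) (i : Fin d) :
    ∃ κ : k →+* AA, ∀ (σ : AA ≃ₐ[ℚ] AA) (ζ : AA), ζ ^ e = 1 → act σ ζ (ξ i) = ξ i →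
      ∀ z, σ (κ z) = κ z :=
  kap_repK (P := fun _ _ _ => True) k (fun K _ _ _ r e' x h1 h2 h3 => hinf K r e' x h1 h2 h3) he hq
    hs hinj i trivial

end Pool.Agent.H34.AC
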