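import Pool.Agent.H34.AC.KapB

/-! # [H34 AC KAPC] The embeddings of `k` attached to the Puiseux expansions -/

namespace Pool.Agent.H34.AC

open Finset Polynomial Pool.Agent.H72.ES Pool.Agent.H87.SA2 Pool.Agent.H97.XC

theorem exists_kap (k : Type) [Field k] {f : ℤ[X][X]} (hinf : INF1 k f) {d : ℕ}
    (pd : PData f d) : Nonempty (H8.AW.Kap k pd) := by
  classical
  obtain ⟨ξ, hξ, hs, hinj⟩ := exists_xi pd
  obtain ⟨e, hee⟩ : ∃ e, e = pd.e := ⟨_, rfl⟩
  have he : 1 ≤ e := hee ▸ pd.e_pos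
  have hζ0 : ∀ ζ : AA, ζ ^ e = 1 → ζ ≠ 0 := by
    intro ζ h h0
    rw [h0, zero_pow (by omega)] at h
    exact zero_ne_one h
  rw [← hee] at hs
  have hrep := kap_rep k hinf he pd.q_pos hs hinj
  choose κ hκ using hrep
  -- the equivalence relation
  let Rl : Setoid (Fin d) :=
    { r := fun i j => ∃ (σ : AA ≃ₐ[ℚ] AA) (ζ : AA), ζ ^ e = 1 ∧ act σ ζ (ξ i) = ξ j
      iseqv :=
        { refl := fun i => ⟨AlgEquiv.refl, 1, one_pow e, by
            refine PowerSeries.ext fun m => ?_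
            rw [coeff_act, one_pow, one_mul]
            rfl⟩
          symm := by
            rintro i j ⟨σ, ζ, h1, h2⟩
            refine ⟨σ.symm, σ.symm ζ⁻¹, ?_, act_symm (hζ0 ζ h1) h2⟩
            rw [← map_pow, inv_pow, h1, inv_one, map_one]
          trans := by
            rintro i j l ⟨σ, ζ, h1, h2⟩ ⟨σ', ζ', h1', h2'⟩
            refine ⟨σ.trans σ', ζ' * σ' ζ, ?_, ?_⟩
            · rw [mul_pow, ← map_pow, h1, h1', map_one, mul_one]
            · rw [← act_act, h2, h2'] } }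
  let rep : Fin d → Fin d := fun i => (Quotient.mk Rl i).out
  have hr1 : ∀ i, ∃ (σ : AA ≃ₐ[ℚ] AA) (ζ : AA), ζ ^ e = 1 ∧ act σ ζ (ξ (rep i)) = ξ i := by
    intro i
    exact Quotient.exact (Quotient.out_eq (Quotient.mk Rl i))
  have hr2 : ∀ i j, (∃ (σ : AA ≃ₐ[ℚ] AA) (ζ : AA), ζ ^ e = 1 ∧ act σ ζ (ξ i) = ξ j) →
      rep i = rep j := by
    intro i j h
    have h1 : Quotient.mk Rl i = Quotient.mk Rl j := Quotient.sound h
    exact congrArg Quotient.out h1
  choose s z hz hsz using hr1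
  -- equivariance
  have hmain : ∀ (σ : AA ≃ₐ[ℚ] AA) (ζ : AA) (i j : Fin d), ζ ^ e = 1 → act σ ζ (ξ i) = ξ j →
      ∀ w : k, σ (s i (κ (rep i) w)) = s j (κ (rep j) w) := by
    intro σ ζ i j h1 h2 w
    have h3 := hr2 i j ⟨σ, ζ, h1, h2⟩
    have h4 : act (s j).symm ((s j).symm (z j)⁻¹) (act σ ζ (act (s i) (z i) (ξ (rep i)))) =
        ξ (rep i) := by
      rw [hsz i, h2, h3]
      exact act_symm (hζ0 _ (hz j)) (hsz j)
    rw [act_act, act_act] at h4
    have h5 := hκ (rep i) _ _ ?_ h4 w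
    · rw [AlgEquiv.trans_apply, AlgEquiv.trans_apply] at h5
      have h6 := congrArg (s j) h5
      rw [AlgEquiv.apply_symm_apply] at h6
      rw [h6, h3]
    · rw [mul_pow, mul_pow, ← map_pow, ← map_pow, ← map_pow, inv_pow, hz, hz, h1]
      simp
  have hcoe : ∀ i m (a : AA), (a : ℂ) = PowerSeries.coeff m (pd.x i) →
      a = PowerSeries.coeff m (ξ i) := by
    intro i m a ha
    apply Subtype.ext
    rw [ha, ← hξ, PowerSeries.coeff_map]
    rfl
  have hcoe2 : ∀ i m, ((PowerSeries.coeff m (ξ i) : AA) : ℂ) = PowerSeries.coeff m (pd.x i) := by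
    intro i m
    rw [← hξ, PowerSeries.coeff_map]
    rfl
  refine ⟨⟨fun i => (algebraMap AA ℂ).comp (((s i : AA ≃ₐ[ℚ] AA) : AA →+* AA).comp (κ (rep i))),
    ?_, ?_⟩⟩
  · intro σ i j h w a ha
    obtain ⟨τ, hτ⟩ := aa_equiv σ
    have h1 : act τ 1 (ξ i) = ξ j := by
      refine PowerSeries.ext fun m => ?_
      rw [coeff_act, one_pow, one_mul]
      apply Subtype.ext
      rw [hτ, h m _ (hcoe2 i m), hcoe2]
    have h2 := hmain τ 1 i j (one_pow e) h1 w
    have h3 : a = s i (κ (rep i) w) := Subtype.ext ha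
    rw [← hτ, h3, h2]
    rfl
  · intro ζ i j hζ h
    rw [← hee] at hζ
    have hζA : ζ ∈ AA := by
      rw [mem_algebraicClosure_iff]
      have h2 : IsIntegral ℚ (ζ ^ e) := by
        rw [hζ]
        exact isIntegral_one
      exact (IsIntegral.of_pow he h2).isAlgebraic
    obtain ⟨ζ', hζ'⟩ : ∃ ζ' : AA, (ζ' : ℂ) = ζ := ⟨⟨ζ, hζA⟩, rfl⟩
    have h1 : ζ' ^ e = 1 := by
      apply Subtype.ext
      rw [SubmonoidClass.coe_pow, hζ', hζ]
      rfl
    have h2 : act AlgEquiv.refl ζ' (ξ i) = ξ j := by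
      refine PowerSeries.ext fun m => ?_
      rw [coeff_act]
      apply Subtype.ext
      have h3 := congrArg (PowerSeries.coeff m) h
      rw [PowerSeries.coeff_rescale] at h3
      rw [hcoe2, ← h3, ← hζ', ← hcoe2]
      rfl
    refine RingHom.ext fun w => ?_
    have h4 := hmain AlgEquiv.refl ζ' i j h1 h2 w
    have h5 := congrArg (algebraMap AA ℂ) h4
    exact h5.symm

end Pool.Agent.H34.AC
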