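import Pool.Agent.H34.AC.RedR
import Pool.Agent.H8.AS.Defs

/-! # [H34 AC REDS] The reduction of an arbitrary curve with `k` at the real points at infinity -/

namespace Pool.Agent.H34.AC

open Finset Polynomial Pool.Agent.H72.ES Pool.Agent.H87.SA2 Pool.Agent.H97.XC

theorem redS (k : Type) [Field k] [NumberField k] (hk : 2 ≤ Module.finrank ℚ k) (n : ℕ)
    (hn3 : 3 ≤ n) (F : MvPolynomial (Fin 2) ℤ)
    (hirr : Irreducible (MvPolynomial.map (Int.castRingHom ℚ) F)) (hn : F.totalDegree ≤ n)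
    (H : ℕ) (hH2 : 2 ≤ H) (hH : ∀ m, |F.coeff m| ≤ (H : ℤ)) (hinf : INFR k F) (x0 y0 : ℤ)
    (h0 : vl F x0 y0 = 0) :
    ∃ (d b : ℕ) (F' : ℕ → ℕ → ℤ) (a : ℤ), Nonempty (H8.AS.CrvS k (n * (n + 1)) d b F') ∧
      b ≤ H ^ cR n ∧ a ≠ 0 ∧ |a| ≤ (H : ℤ) ∧
      ∀ x y : ℤ, vl F x y = 0 → ev d F' (y + x ^ (n + 1)) (a * x) = 0 := by
  obtain ⟨d, b, F', a, h1, h2, h3, h4, h5, h6, ⟨pd, h7, h8, h9⟩, h10, h11, h12, h13, h14, h15⟩ :=
    red_raw k hk n hn3 F hirr hn H hH2 hH hinf x0 y0 h0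
  obtain ⟨S, kap, hS1, hS2, hS3⟩ := exists_kapR k
    (fun K _ _ hK r e x hr he hx => h10 K (hinf K hK) r e x hr he hx) pd
  exact ⟨d, b, F', a, ⟨
    { d4 := h1
      dn := h2
      b2 := h3
      lead := h4
      le := h5
      irr := h6
      pd := pd
      e_le := h7
      q_le := h8
      R_le := h9
      kp := { S := S, kap := kap, real_mem := hS1, gal := hS2, rot := hS3 }
      bez := h11 }⟩, h12, h13, h14, h15⟩

end Pool.Agent.H34.AC
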