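import Pool.Agent.H34.AC.Inf1

/-! # [H34 AC TRF] The automorphism `(x, y) ↦ (y + x^M, x)` -/

namespace Pool.Agent.H34.AC

open Finset Polynomial Pool.Agent.H72.ES Pool.Agent.H87.SA2

theorem vl_eq {S : Type*} [CommRing S] (F : MvPolynomial (Fin 2) ℤ) (x y : S) :
    vl F x y = ∑ m ∈ F.support, ((F.coeff m : ℤ) : S) * (x ^ m 0 * y ^ m 1) := by
  rw [vl, MvPolynomial.eval₂_eq']
  refine Finset.sum_congr rfl fun m _ => ?_
  rw [Fin.prod_univ_two]
  rfl

theorem vl_hom {S T : Type*} [CommRing S] [CommRing T] (φ : S →+* T)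
    (F : MvPolynomial (Fin 2) ℤ) (x y : S) : φ (vl F x y) = vl F (φ x) (φ y) := by
  rw [vl_eq, vl_eq, map_sum]
  refine Finset.sum_congr rfl fun m _ => ?_
  rw [map_mul, map_mul, map_pow, map_pow, map_intCast]

/-- the coefficients of `z^i (u - z^M)^j` -/
theorem mon_coeff (i j a b M : ℕ) :
    (((X ^ i * (C X - X ^ M) ^ j : ℤ[X][X])).coeff b).coeff a =
      if a ≤ j ∧ b = i + M * (j - a) then (-1) ^ (j - a) * (j.choose a : ℤ) else 0 := by
  have h1 : (X ^ i * (C X - X ^ M) ^ j : ℤ[X][X]) =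
      ∑ l ∈ range (j + 1), C (C ((-1) ^ (j - l) * (j.choose l : ℤ)) * X ^ l) *
        X ^ (i + M * (j - l)) := by
    rw [sub_eq_add_neg, add_pow, Finset.mul_sum]
    refine Finset.sum_congr rfl fun l _ => ?_
    rw [neg_pow (X ^ M : ℤ[X][X]), ← pow_mul, pow_add]
    simp only [map_mul, map_pow, map_neg, map_one, map_natCast]
    ring
  rw [h1, finsetSum_coeff, finsetSum_coeff]
  have h2 : ∀ l ∈ range (j + 1), ((C (C ((-1) ^ (j - l) * (j.choose l : ℤ)) * X ^ l) *
      X ^ (i + M * (j - l)) : ℤ[X][X]).coeff b).coeff a =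
      if l = a then (if b = i + M * (j - a) then (-1) ^ (j - a) * (j.choose a : ℤ) else 0)
        else 0 := by
    intro l _
    rw [coeff_C_mul_X_pow]
    by_cases hla : l = a
    · subst hla
      rw [if_pos rfl]
      split_ifs with h
      · rw [coeff_C_mul_X_pow, if_pos rfl]
      · rw [coeff_zero]
    · rw [if_neg hla]
      split_ifs with h
      · rw [coeff_C_mul_X_pow, if_neg (fun h => hla h.symm)]
      · rw [coeff_zero]
  rw [Finset.sum_congr rfl h2, Finset.sum_ite_eq']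
  by_cases haj : a ≤ j
  · rw [if_pos (Finset.mem_range.2 (by omega))]
    by_cases hb : b = i + M * (j - a)
    · rw [if_pos hb, if_pos ⟨haj, hb⟩]
    · rw [if_neg hb, if_neg (fun h => hb h.2)]
  · rw [if_neg (fun h => haj (by rw [Finset.mem_range] at h; omega)), if_neg (fun h => haj h.1)]

theorem Gt_coeff (M : ℕ) (F : MvPolynomial (Fin 2) ℤ) (a b : ℕ) :
    ((Gt M F).coeff b).coeff a = ∑ m ∈ F.support, F.coeff m *
      (if a ≤ m 1 ∧ b = m 0 + M * (m 1 - a) then (-1) ^ (m 1 - a) * ((m 1).choose a : ℤ)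
        else 0) := by
  rw [Gt, vl_eq, finsetSum_coeff, finsetSum_coeff]
  refine Finset.sum_congr rfl fun m _ => ?_
  rw [← mon_coeff, show (((F.coeff m : ℤ) : ℤ[X][X])) = C (C (F.coeff m)) from by simp,
    coeff_C_mul, coeff_C_mul]

theorem le_Dg (M : ℕ) (F : MvPolynomial (Fin 2) ℤ) (m : Fin 2 →₀ ℕ) (hm : m ∈ F.support) :
    m 0 + M * m 1 ≤ Dg M F := by
  unfold Dg
  exact Finset.le_sup (f := fun m : Fin 2 →₀ ℕ => m 0 + M * m 1) hm

/-- the total degree of `Gt` is at most `Dg` -/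
theorem Gt_zero {M : ℕ} (hM : 1 ≤ M) (F : MvPolynomial (Fin 2) ℤ) {a b : ℕ}
    (h : Dg M F < a + b) : ((Gt M F).coeff b).coeff a = 0 := by
  rw [Gt_coeff]
  refine Finset.sum_eq_zero fun m hm => ?_
  rw [if_neg, mul_zero]
  rintro ⟨h1, h2⟩
  have h3 := le_Dg M F m hm
  obtain ⟨c, hc⟩ := Nat.exists_eq_add_of_le h1
  rw [hc, Nat.add_sub_cancel_left] at h2
  rw [hc, mul_add] at h3
  have h4 : a ≤ M * a := Nat.le_mul_of_pos_left a hM
  omega

theorem two_mem {n : ℕ} {F : MvPolynomial (Fin 2) ℤ} (hn : F.totalDegree ≤ n)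
    {m : Fin 2 →₀ ℕ} (hm : m ∈ F.support) : m 0 + m 1 ≤ n := by
  have h1 := MvPolynomial.le_totalDegree hm
  rw [Finsupp.sum_fintype _ _ (fun _ => rfl), Fin.sum_univ_two] at h1
  exact h1.trans hn

theorem two_ext {m m' : Fin 2 →₀ ℕ} (h0 : m 0 = m' 0) (h1 : m 1 = m' 1) : m = m' := by
  ext i
  fin_cases i
  · exact h0
  · exact h1

theorem Gt_le {n M H : ℕ} (hM : n < M) {F : MvPolynomial (Fin 2) ℤ} (hn : F.totalDegree ≤ n)
    (hH : ∀ m, |F.coeff m| ≤ (H : ℤ)) (a b : ℕ) :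
    |((Gt M F).coeff b).coeff a| ≤ ((2 ^ n * H : ℕ) : ℤ) := by
  rw [Gt_coeff]
  by_cases h : ∃ m ∈ F.support, a ≤ m 1 ∧ b = m 0 + M * (m 1 - a)
  · obtain ⟨m, hm, h1, h2⟩ := h
    have hmn := two_mem hn hm
    rw [Finset.sum_eq_single m]
    · rw [if_pos ⟨h1, h2⟩, abs_mul, abs_mul, abs_pow, abs_neg, abs_one, one_pow, one_mul,
        Nat.abs_cast]
      have h3 : (((m 1).choose a : ℕ) : ℤ) ≤ ((2 ^ n : ℕ) : ℤ) := by
        exact_mod_cast (Nat.choose_le_two_pow _ _).trans (Nat.pow_le_pow_right (by norm_num)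
          (by omega))
      calc |F.coeff m| * (((m 1).choose a : ℕ) : ℤ) ≤ (H : ℤ) * ((2 ^ n : ℕ) : ℤ) :=
            mul_le_mul (hH m) h3 (by positivity) (by positivity)
        _ = _ := by push_cast; ring
    · intro m' hm' hne
      rw [if_neg, mul_zero]
      rintro ⟨h3, h4⟩
      apply hne
      have hmn' := two_mem hn hm'
      have h5 : b % M = m 0 := by
        rw [h2, Nat.add_mul_mod_self_left, Nat.mod_eq_of_lt (by omega)]
      have h6 : b % M = m' 0 := by
        rw [h4, Nat.add_mul_mod_self_left, Nat.mod_eq_of_lt (by omega)]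
      have h7 : m' 0 = m 0 := by rw [← h5, ← h6]
      have h8 : M * (m' 1 - a) = M * (m 1 - a) := by omega
      have h9 := Nat.eq_of_mul_eq_mul_left (by omega : 0 < M) h8
      exact two_ext h7 (by omega)
    · intro h3
      exact absurd hm h3
  · rw [Finset.sum_eq_zero, abs_zero]
    · positivity
    · intro m hm
      rw [if_neg, mul_zero]
      intro h3
      exact h ⟨m, hm, h3⟩

/-- the leading coefficient -/
theorem Gt_lead {n M H : ℕ} (hM : n < M) {F : MvPolynomial (Fin 2) ℤ} (hn : F.totalDegree ≤ n)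
    (hH : ∀ m, |F.coeff m| ≤ (H : ℤ)) (hF : F ≠ 0) :
    ∃ a : ℤ, a ≠ 0 ∧ |a| ≤ (H : ℤ) ∧ ((Gt M F).coeff (Dg M F)).coeff 0 = a := by
  obtain ⟨m, hm, hmD⟩ := Finset.exists_mem_eq_sup F.support
    (MvPolynomial.support_nonempty.2 hF) (fun m : Fin 2 →₀ ℕ => m 0 + M * m 1)
  have hmn := two_mem hn hm
  refine ⟨F.coeff m * (-1) ^ m 1, ?_, ?_, ?_⟩
  · exact mul_ne_zero (MvPolynomial.mem_support_iff.1 hm) (pow_ne_zero _ (by norm_num))
  · rw [abs_mul, abs_pow, abs_neg, abs_one, one_pow, mul_one]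
    exact hH m
  · rw [Gt_coeff, Finset.sum_eq_single m]
    · rw [if_pos ⟨Nat.zero_le _, by rw [Nat.sub_zero]; exact hmD⟩, Nat.sub_zero, Nat.choose_zero_right]
      simp
    · intro m' hm' hne
      rw [if_neg, mul_zero]
      rintro ⟨_, h4⟩
      apply hne
      have hmn' := two_mem hn hm'
      rw [Nat.sub_zero] at h4
      have h2 : Dg M F = m 0 + M * m 1 := hmD
      have h5 : Dg M F % M = m 0 := by
        rw [h2, Nat.add_mul_mod_self_left, Nat.mod_eq_of_lt (by omega)]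
      have h6 : Dg M F % M = m' 0 := by
        rw [h4, Nat.add_mul_mod_self_left, Nat.mod_eq_of_lt (by omega)]
      have h7 : m' 0 = m 0 := by rw [← h5, ← h6]
      have h8 : M * m' 1 = M * m 1 := by omega
      exact two_ext h7 (Nat.eq_of_mul_eq_mul_left (by omega : 0 < M) h8)
    · intro h3
      exact absurd hm h3

theorem Dg_le {n M : ℕ} (hM1 : 1 ≤ M) {F : MvPolynomial (Fin 2) ℤ} (hn : F.totalDegree ≤ n) :
    Dg M F ≤ n * M := by
  unfold Dg
  refine Finset.sup_le fun m hm => ?_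
  have h1 := two_mem hn hm
  calc m 0 + M * m 1 ≤ M * m 0 + M * m 1 := by
        have := Nat.le_mul_of_pos_left (m 0) hM1
        omega
    _ = (m 0 + m 1) * M := by ring
    _ ≤ n * M := Nat.mul_le_mul_right _ h1

/-- value of a polynomial of total degree `≤ D` -/
theorem ev_poly {S : Type*} [CommRing S] {D : ℕ} {p : ℤ[X][X]}
    (hp : ∀ i j, D < i + j → (p.coeff j).coeff i = 0) (u x : S) :
    ev D (cst S fun i j => (p.coeff j).coeff i) u x =
      (p.map (eval₂RingHom (Int.castRingHom S) u)).eval x := by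
  have h1 : p.natDegree < D + 1 := by
    rw [Nat.lt_succ_iff, Polynomial.natDegree_le_iff_coeff_eq_zero]
    intro N hN
    ext i
    rw [coeff_zero]
    exact hp i N (by omega)
  have h2 : (p.map (eval₂RingHom (Int.castRingHom S) u)).natDegree < D + 1 :=
    lt_of_le_of_lt natDegree_map_le h1
  rw [eval_eq_sum_range' h2, ev, tri_comm]
  refine Finset.sum_congr rfl fun j hj => ?_
  rw [coeff_map, coe_eval₂RingHom, eval₂_eq_sum_range' (n := D + 1 - j), Finset.sum_mul]
  · refine Finset.sum_congr rfl fun i _ => ?_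
    rfl
  · rw [Finset.mem_range] at hj
    have h3 : (p.coeff j).natDegree ≤ D - j := by
      rw [Polynomial.natDegree_le_iff_coeff_eq_zero]
      intro N hN
      exact hp N j (by omega)
    omega

theorem Gt_eval {S : Type*} [CommRing S] (M : ℕ) (F : MvPolynomial (Fin 2) ℤ) (x y : S) :
    ((Gt M F).map (eval₂RingHom (Int.castRingHom S) (y + x ^ M))).eval x = vl F x y := by
  have h1 := vl_hom ((evalRingHom x).comp (mapRingHom (eval₂RingHom (Int.castRingHom S)
    (y + x ^ M)))) F (X : ℤ[X][X]) (C X - X ^ M)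
  rw [RingHom.comp_apply, coe_evalRingHom, coe_mapRingHom] at h1
  rw [Gt, h1]
  congr 1
  · simp
  · simp

theorem Ft_mul {M D : ℕ} (hD : 1 ≤ D) {a : ℤ} {F : MvPolynomial (Fin 2) ℤ}
    (ha : ((Gt M F).coeff D).coeff 0 = a) (i j : ℕ) (hij : i + j ≤ D) :
    Ft M D a F i j * a ^ j = a ^ (D - 1) * ((Gt M F).coeff j).coeff i := by
  unfold Ft
  split_ifs with h1 h2
  · rw [mul_right_comm, ← pow_add]
    congr 2
    omega
  · obtain ⟨rfl, rfl⟩ := h2
    rw [ha, one_mul, ← pow_succ]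
    congr 1
    omega
  · omega

theorem Ft_ev {M : ℕ} (hM : 1 ≤ M) {a : ℤ} {F : MvPolynomial (Fin 2) ℤ} (hD : 1 ≤ Dg M F)
    (ha : ((Gt M F).coeff (Dg M F)).coeff 0 = a) {S : Type*} [CommRing S] (x y : S) :
    ev (Dg M F) (cst S (Ft M (Dg M F) a F)) (y + x ^ M) ((a : S) * x) =
      (a : S) ^ (Dg M F - 1) * vl F x y := by
  rw [← Gt_eval M F x y, ← ev_poly (D := Dg M F) (fun i j h => Gt_zero hM F h), ev, ev,
    Finset.mul_sum]
  refine Finset.sum_congr rfl fun i hi => ?_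
  rw [Finset.mul_sum]
  refine Finset.sum_congr rfl fun j hj => ?_
  rw [Finset.mem_range] at hi hj
  have h1 := Ft_mul hD ha i j (by omega)
  have h2 := congrArg (fun z : ℤ => (z : S)) h1
  simp only [Int.cast_mul, Int.cast_pow] at h2
  rw [cst, cst, mul_pow]
  calc ((Ft M (Dg M F) a F i j : ℤ) : S) * (y + x ^ M) ^ i * ((a : S) ^ j * x ^ j)
      = (((Ft M (Dg M F) a F i j : ℤ) : S) * (a : S) ^ j) * (y + x ^ M) ^ i * x ^ j := by ring
    _ = _ := by rw [h2]; ring

end Pool.Agent.H34.AC
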